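import Pool.Agent.Zk18.Th.Stm2

/-!
# Algebraic independence at a special point implies algebraic independence at the generic point
-/

set_option autoImplicit false

namespace Pool.Agent.Zk18.Th

open TensorProduct Pool.Agent.Zk18.Fd

theorem gai (hGLI : S_GLI) : S_GAI := by
  intro K F L E A _ _ _ _ _ _ _ _ _ _ _ _ _ _ hdis ι hι s m τ hs
  classical
  rw [algebraicIndependent_iff]
  intro P hP
  by_contra hP0
  have hli := hGLI K F L E A hdis ι hι s P.support (fun μ => ∏ i, τ i ^ (μ.1 i)) (by
    have h1 : LinearIndependent K (fun μ : Fin m →₀ ℕ => ∏ i, (sg L s (τ i)) ^ (μ i)) := by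
      have h2 : LinearIndependent K (fun μ : Fin m →₀ ℕ =>
          (MvPolynomial.aeval (fun i => sg L s (τ i)) : MvPolynomial (Fin m) K →ₐ[K] L)
            (MvPolynomial.monomial μ 1)) := by
        have h3 := (MvPolynomial.basisMonomials (Fin m) K).linearIndependent.map'
          (MvPolynomial.aeval (fun i => sg L s (τ i)) : MvPolynomial (Fin m) K →ₐ[K] L).toLinearMap
          (LinearMap.ker_eq_bot.mpr hs)
        have e1 : (fun μ : Fin m →₀ ℕ =>
          (MvPolynomial.aeval (fun i => sg L s (τ i)) : MvPolynomial (Fin m) K →ₐ[K] L)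
            (MvPolynomial.monomial μ 1)) =
          (MvPolynomial.aeval (fun i => sg L s (τ i)) : MvPolynomial (Fin m) K →ₐ[K] L).toLinearMap ∘
            (MvPolynomial.basisMonomials (Fin m) K) := by
          funext μ
          simp
        rw [e1]
        exact h3
      have e2 : (fun μ : Fin m →₀ ℕ => ∏ i, (sg L s (τ i)) ^ (μ i)) = (fun μ : Fin m →₀ ℕ =>
          (MvPolynomial.aeval (fun i => sg L s (τ i)) : MvPolynomial (Fin m) K →ₐ[K] L)
            (MvPolynomial.monomial μ 1)) := by
        funext μ
        rw [MvPolynomial.aeval_monomial, map_one, one_mul, Finsupp.prod_fintype _ _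
          (fun i => pow_zero _)]
      rw [e2]
      exact h2
    have h4 := h1.comp (fun μ : P.support => μ.1) Subtype.val_injective
    convert h4 using 1
    funext μ
    rw [map_prod, Function.comp_apply]
    exact Finset.prod_congr rfl fun i _ => map_pow _ _ _)
  have h5 : ∀ μ : P.support, P.coeff μ.1 = 0 := by
    apply Fintype.linearIndependent_iff.mp hli (fun μ => P.coeff μ.1)
    rw [← hP, MvPolynomial.aeval_def, MvPolynomial.eval₂_eq', ← Finset.sum_coe_sort P.support]
    apply Finset.sum_congr rfl
    intro μ _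
    rw [Algebra.smul_def, map_prod, map_prod]
    congr 1
    refine Finset.prod_congr rfl fun i _ => ?_
    rw [map_pow, map_pow]
  obtain ⟨μ, hμ⟩ := MvPolynomial.ne_zero_iff.mp hP0
  exact hμ (h5 ⟨μ, MvPolynomial.mem_support_iff.mpr hμ⟩)

end Pool.Agent.Zk18.Th
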