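import Pool.Agent.Zk18.Th.Sfk

/-!
# Points without thin curves: complex numbers (any transcendence degree)
-/

set_option autoImplicit false
set_option linter.unusedSectionVars false

attribute [-instance] HahnSeries.powerSeriesAlgebra

namespace Pool.Agent.Zk18.Thk

open Pool.Agent.Zk18 Pool.Agent.Zk18.Md Pool.Agent.Zk18.Fd Pool.Agent.Zk18.Th

/-- **The number of the fields.** -/
theorem encard_fields (hLOW : S_LOWK) (hGLI : S_GLI) (hGAI : S_GAI) (V : Submodule (algebraicClosure ℚ ℂ) ℂ)
    (hV : FiniteDimensional (algebraicClosure ℚ ℂ) V) (h1V : (1 : ℂ) ∈ V) (M : ℕ)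
    (hM : Module.finrank (algebraicClosure ℚ ℂ) V ≤ M) (k D : ℕ) :
    {E : Set ℂ | ∃ (y : Fin (k + 1) → ℂ) (P : MvPolynomial (Fin (k + 1)) (algebraicClosure ℚ ℂ)),
      (∀ i, y i ∈ V) ∧
      (∃ i : Fin (k + 1), AlgebraicIndependent (algebraicClosure ℚ ℂ) fun j => y (i.succAbove j)) ∧
      LinearIndependent (algebraicClosure ℚ ℂ) (Fin.cons 1 y : Fin (k + 1 + 1) → ℂ) ∧
      P ≠ 0 ∧ (∀ i, P.degreeOf i ≤ D) ∧ MvPolynomial.aeval y P = 0 ∧
      (∀ c : Fin (k + 1) → Polynomial ℂ, (∀ i, (c i).coeff 0 = y i) →
        MvPolynomial.aeval c P = 0 → (sup c).card + 4 ≤ max 5 (M + 1 - k) →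
          ∀ i, c i = Polynomial.C (y i)) ∧ E = Fld y}.encard ≤
      ((2 * ((k + 1) * D + 1)) ^ ((k + 1) * M + (D + 1) ^ (k + 1)) : ℕ) := by
  classical
  let K := algebraicClosure ℚ ℂ
  have hKa : IsAlgClosed K := (algebraicClosure.isAlgClosure ℚ ℂ).isAlgClosed
  have hKc : Countable K := Cx.countable_QB
  have hCu : Uncountable ℂ := by
    have h1 : ¬ (Set.univ : Set ℂ).Countable := not_countable_complex
    rw [Set.countable_univ_iff, not_countable_iff] at h1
    exact h1
  obtain ⟨N, hN⟩ : ∃ N, N = Module.finrank K V := ⟨_, rfl⟩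
  let B : Module.Basis (Fin N) K V := (Module.finBasisOfFinrankEq K V hN.symm)
  let L : IntermediateField K ℂ := KK K (Set.range fun j => (B j : ℂ))
  have hLc : Countable L := countable_KK _ (Set.countable_range _)
  let b : Fin N → L := fun j => ⟨B j, mem_KK_of_mem ⟨j, rfl⟩⟩
  obtain ⟨e, he⟩ : ∃ e : Fin N → K, ∑ j, algebraMap K L (e j) * b j = 1 := by
    refine ⟨fun j => B.repr ⟨1, h1V⟩ j, ?_⟩
    apply Subtype.ext
    have h2 := congrArg (fun v : V => (v : ℂ)) (B.sum_repr ⟨1, h1V⟩)
    simp only [Submodule.coe_sum, Submodule.coe_smul] at h2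
    have h3 : ((∑ j, algebraMap K L (B.repr ⟨1, h1V⟩ j) * b j : L) : ℂ) =
        ∑ j, ((algebraMap K L (B.repr ⟨1, h1V⟩ j) * b j : L) : ℂ) := map_sum (L.val) _ _
    rw [h3]
    refine Eq.trans ?_ h2
    apply Finset.sum_congr rfl
    intro j _
    rw [Algebra.smul_def]
    rfl
  have hcard : ∀ T : Finset (Set ℂ), (∀ E ∈ T, ∃ (y : Fin (k + 1) → ℂ)
      (P : MvPolynomial (Fin (k + 1)) K), (∀ i, y i ∈ V) ∧
      (∃ i : Fin (k + 1), AlgebraicIndependent K fun j => y (i.succAbove j)) ∧
      LinearIndependent (algebraicClosure ℚ ℂ) (Fin.cons 1 y : Fin (k + 1 + 1) → ℂ) ∧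
      P ≠ 0 ∧ (∀ i, P.degreeOf i ≤ D) ∧ MvPolynomial.aeval y P = 0 ∧
      (∀ c : Fin (k + 1) → Polynomial ℂ, (∀ i, (c i).coeff 0 = y i) →
        MvPolynomial.aeval c P = 0 → (sup c).card + 4 ≤ max 5 (M + 1 - k) →
          ∀ i, c i = Polynomial.C (y i)) ∧ E = Fld y) →
      T.card ≤ (2 * ((k + 1) * D + 1)) ^ ((k + 1) * M + (D + 1) ^ (k + 1)) := by
    intro T hT
    have h1 : ∀ E : Set ℂ, ∃ s : Set L, E ∈ T → (∃ z : Par k N D → K, GoodPtT b z ∧
        s = (AlgebraicIndependent.matroid K L).closure (Set.range (Fd.pt b (xx z)))) ∧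
        E = (fun x : L => (x : ℂ)) '' s := by
      intro E
      by_cases hE : E ∈ T
      swap
      · exact ⟨∅, fun h => absurd h hE⟩
      obtain ⟨y, P, hyV, ⟨i₀, hi₀⟩, hyind, hP, hPD, hPy, hNC, hEy⟩ := hT E hE
      obtain ⟨c, hc⟩ := exists_UP P hPD
      have hrep : ∀ i, ∃ x : Fin N → K, (∑ j, x j • (B j : ℂ)) = y i := by
        intro i
        refine ⟨fun j => B.repr ⟨y i, hyV i⟩ j, ?_⟩
        have h2 := congrArg (fun v : V => (v : ℂ)) (B.sum_repr ⟨y i, hyV i⟩)
        simp only [Submodule.coe_sum, Submodule.coe_smul] at h2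
        exact h2
      choose x hx using hrep
      let z : Par k N D → K := Sum.elim (fun p => x p.1 p.2) c
      have hxx : xx z = x := rfl
      have hcc : cc z = c := rfl
      have hpt : ∀ i, ((Fd.pt b (xx z) i : L) : ℂ) = y i := by
        intro i
        rw [← hx i, Fd.pt, hxx]
        have h2 : ((∑ j, algebraMap K L (x i j) * b j : L) : ℂ) =
            ∑ j, ((algebraMap K L (x i j) * b j : L) : ℂ) := map_sum (L.val) _ _
        rw [h2]
        apply Finset.sum_congr rfl
        intro j _
        rw [Algebra.smul_def]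
        rfl
      have hyeq : (fun i => ((Fd.pt b (xx z) i : L) : ℂ)) = y := funext hpt
      have hai : AlgebraicIndependent K (fun j => Fd.pt b (xx z) (i₀.succAbove j)) := by
        have h3 : (fun j => y (i₀.succAbove j)) =
            (L.val : L →ₐ[K] ℂ) ∘ (fun j => Fd.pt b (xx z) (i₀.succAbove j)) := by
          funext j
          exact (hpt _).symm
        rw [h3] at hi₀
        exact AlgebraicIndependent.of_comp _ hi₀
      refine ⟨_, fun _ => ⟨⟨z, ?_, rfl⟩, ?_⟩⟩
      · constructor
        · rw [hcc, ← hc]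
          exact hP
        · rw [hcc, ← hc]
          apply Subtype.ext
          have h2 := MvPolynomial.aeval_algebraMap_apply (B := ℂ) (Fd.pt b (xx z)) P
          have h3 : ((MvPolynomial.aeval (Fd.pt b (xx z)) P : L) : ℂ) =
              MvPolynomial.aeval y P := by
            rw [← hyeq]
            exact h2.symm
          rw [h3, hPy]
          rfl
        · have h2 := hai
          have h3 : (AlgebraicIndependent.matroid K L).Indep
              (Set.range (fun j => Fd.pt b (xx z) (i₀.succAbove j))) := by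
            rw [AlgebraicIndependent.matroid_indep_iff]
            exact AlgebraicIndependent.coe_range h2
          have h4 := h3.encard_le_eRk_of_subset (X := Set.range (Fd.pt b (xx z))) (by
            rintro _ ⟨j, rfl⟩
            exact ⟨_, rfl⟩)
          refine le_trans (le_of_eq ?_) h4
          rw [← Set.image_univ, (h2.injective).encard_image, Set.encard_univ]
          simp
        · exact ⟨i₀, hai⟩
        · have h2 : (Fin.cons 1 y : Fin (k + 1 + 1) → ℂ) = (L.val.toLinearMap : L →ₗ[K] ℂ) ∘
              (Fin.cons 1 (Fd.pt b (xx z)) : Fin (k + 1 + 1) → L) := by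
            funext i
            refine Fin.cases ?_ (fun i => ?_) i
            · rfl
            · exact (hpt i).symm
          rw [h2] at hyind
          exact LinearIndependent.of_comp _ hyind
        · intro κ hκ hLκ hκc
          obtain ⟨j⟩ := exists_emb (L := L) (κ := κ) (M := ℂ)
          apply NCt.of_embedding _ (j : κ →+* ℂ)
          intro cu hcu hcuP hcard₀ i r hr
          have hcu' : ∀ i, (cu i).coeff 0 = y i := by
            intro i
            rw [hcu]
            have h2 := j.commutes (Fd.pt b (xx z) i)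
            refine Eq.trans h2 ?_
            exact hpt i
          have h2 := hNC cu hcu' (by
            rw [hc, ← hcc, MvPolynomial.aeval_def, eval₂_UP]
            rw [eval₂_UP] at hcuP
            rw [← hcuP]
            apply Finset.sum_congr rfl
            intro d _
            congr 1
            simp only [RingHom.comp_apply]
            rw [Polynomial.algebraMap_apply]
            congr 1
            have h3 := j.commutes (algebraMap K L (cc z d))
            exact h3.symm) (hcard₀.trans (max_le_max le_rfl (by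
              have h4 : N ≤ M := hN ▸ hM
              omega))) i
          rw [h2, Polynomial.coeff_C, if_neg hr]
      · rw [hEy, Fld_eq]
        ext w
        constructor
        · intro hw
          have hw' : w ∈ KK K (Set.range y) := hw
          have hwL : w ∈ L := by
            have h2 : KK K (Set.range y) ≤ L := by
              apply KK_le
              rintro _ ⟨i, rfl⟩
              rw [← hpt i]
              exact (Fd.pt b (xx z) i).2
            exact h2 hw'
          refine ⟨⟨w, hwL⟩, ?_, rfl⟩
          rw [← hyeq] at hw'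
          have h3 := (coe_mem_KK L (Fd.pt b (xx z)) ⟨w, hwL⟩).mp hw'
          rw [mem_KK] at h3
          exact h3
        · rintro ⟨w, hw, rfl⟩
          have h3 : w ∈ KK K (Set.range (Fd.pt b (xx z))) := by
            rw [mem_KK]
            exact hw
          have h4 := (coe_mem_KK L (Fd.pt b (xx z)) w).mpr h3
          rw [hyeq] at h4
          exact h4
    choose s hs using h1
    have hinj : Set.InjOn s (T : Set (Set ℂ)) := by
      intro E hE E' hE' heq
      rw [(hs E hE).2, (hs E' hE').2, heq]
    rw [← Finset.card_image_of_injOn hinj]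
    have h2 := card_fields hLOW hGLI hGAI (K := K) (k := k) (D := D) b e he (T.image s) (by
      intro t ht
      rw [Finset.mem_image] at ht
      obtain ⟨E, hE, rfl⟩ := ht
      exact (hs E hE).1)
    refine h2.trans (Nat.pow_le_pow_right (by omega) ?_)
    have h3 : N ≤ M := hN ▸ hM
    exact Nat.add_le_add_right (Nat.mul_le_mul_left _ h3) _
  by_contra hcon
  rw [not_le] at hcon
  obtain ⟨t, ht, htc⟩ := Set.exists_subset_encard_eq (Order.add_one_le_of_lt hcon)
  have hfin : t.Finite := by
    rw [← Set.encard_lt_top_iff, htc]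
    exact_mod_cast ENat.natCast_lt_top _
  have h5 := hcard hfin.toFinset (fun E hE => ht (hfin.mem_toFinset.mp hE))
  have h6 : (hfin.toFinset.card : ℕ∞) = t.encard := hfin.encard_eq_coe_toFinset_card.symm
  rw [htc] at h6
  have h7 : hfin.toFinset.card = (2 * ((k + 1) * D + 1)) ^ ((k + 1) * M + (D + 1) ^ (k + 1)) + 1 := by
    exact_mod_cast h6
  omega

end Pool.Agent.Zk18.Thk
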