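import Mathlib

/-!
Statements (NOT results) of three modules for MP_60829e_nt: algebraic relations between two linear
forms in logarithms whose curve is polynomially parametrised.
-/

set_option autoImplicit false

namespace Pool.Agent.Zk18.Th

open Polynomial

/-- TERMS: `f (ℓ (s))` has at least `deg f` nonconstant terms, if `ℓ (0)` is transcendental over the
field of the coefficients of `f` and `ℓ` is not constant.

Proof. Pass to an algebraic closure of `U`. Let `x = ℓ (0)`, `ρ_i` the coefficients of `ℓ`. Let `O` be a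
valuation ring of `U` which contains the image of `K` and `x⁻¹`, with `x⁻¹` in the maximal ideal (from the
local ring of `K[x⁻¹]` at `x⁻¹ = 0`). Choose `r_i` with `r_i ^ i * ρ_i = x` for `i ≥ 1`, `ρ_i ≠ 0`, and let
`t` be the `r_i` of minimal valuation (exactly the rescaling in `Pool/Agent/Zk18/Fd7.lean`, `NA_generic`). Then
`m (s) = ℓ (t s) / x ∈ O[s]`, its reduction `g` has `g (0) = 1` and is not constant, and
`f (ℓ (t s)) / x ^ a = ∑ f_j x ^ (j - a) m ^ j` (`a = deg f`) reduces to `f_a g ^ a`. So every exponent of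
`g ^ a` is an exponent of `f (ℓ)`. Finally `g` has a root `z ≠ 0` over an algebraic closure of the residue
field, `(X - z) ^ a` divides `g ^ a`, and a nonzero polynomial in characteristic zero which is
divisible by `(X - z) ^ a`, `z ≠ 0`, has at least `a + 1` terms (induction on `a`: divide by a power of `X`
so that the constant term is not zero, then differentiate). -/
def S_TERMS : Prop :=
  ∀ (K U : Type) [Field K] [CharZero K] [Field U] [Algebra K U] (f : K[X]) (ℓ : U[X]),
    Transcendental K (ℓ.coeff 0) → ℓ.natDegree ≠ 0 →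
    f.natDegree ≤ (((f.map (algebraMap K U)).comp ℓ).support.erase 0).card

/-- LUR: a polynomial curve on a plane curve over `K` through a generic point factors through a
birational polynomial parametrisation.

Proof. By `Pool.Agent.Zk18.Dg.polynomial_pair` (`Zk18/Dg5.lean`; over an algebraic closure of `U`) there are
`f₀ : Fin 2 → K[X]` and `t` with `y l = aeval t (f₀ l)`; `t` is transcendental over `K`. By Lüroth
(`RatFunc.Luroth` in Mathlib) `K(f₀ 0, f₀ 1) ⊆ K(T)` is `K(γ)`; if the value of `γ` at infinity is a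
number replace `γ` by `1 / (γ - γ(∞))`, so `γ` has a pole at infinity; `f₀ l = r_l (γ)` with `r_l` a rational
function, whose finite poles `β` would be values `γ (t₀)` at a finite `t₀`, where `f₀ l` has no pole; so
`r_l = f l` is a polynomial (compare `Zk18/Lur.lean`, `exists_generator`, `pole_identity`). So
`y l = aeval x (f l)` with `x = p(y) / q(y)`, `p, q ∈ K[Y₀, Y₁]`. By `Dg.curve_transfer` (`Zk18/Dg3.lean`) all
relations over `K` of `y` are true for `c`; put `ℓ = p(c) / q(c)` (`q(c) ≠ 0` since its value at `0` is `q(y)`); then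
`f l (ℓ) = c l` in `U(s)`, so `ℓ` is integral over `U[s]`, hence a polynomial, with `ℓ (0) = x`. -/
def S_LUR : Prop :=
  ∀ (K U : Type) [Field K] [IsAlgClosed K] [CharZero K] [Field U] [IsAlgClosed U] [Algebra K U]
    (y : Fin 2 → U) (i : Fin 2) (_ : Transcendental K (y i)) (P : MvPolynomial (Fin 2) K)
    (_ : P ≠ 0) (_ : MvPolynomial.aeval y P = 0) (c : Fin 2 → U[X])
    (_ : ∀ l, (c l).coeff 0 = y l) (_ : MvPolynomial.aeval c P = 0)
    (_ : ∃ l, c l ≠ C (y l)),
    ∃ (f : Fin 2 → K[X]) (ℓ : U[X]), Transcendental K (ℓ.coeff 0) ∧ ℓ.natDegree ≠ 0 ∧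
      ∀ l, c l = ((f l).map (algebraMap K U)).comp ℓ

/-- LOW: the first nonconstant coefficients of a curve through the generic point of a plane curve
which is not a line are linearly independent over `F`.

Proof. Suppose `α γ₀ + β γ₁ = 0`, `γ l = (c l).coeff j`, `(α, β) ≠ 0` in `F`. Put
`w = α y₀ + β y₁`, `cw = α c₀ + β c₁`: the coefficients of `cw` at `1..j` are zero. Let `i` be an index with
`γ i ≠ 0`. If `w` is algebraic over `F` then `w ∈ F` (algebraically closed), so `1, y₀, y₁` are linearly
dependent. Otherwise `w` is transcendental and `y i` is algebraic over `F(w)` (as `y₀, y₁` are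
algebraically dependent): take `Q ∈ F[W][X]` with `Q(w, X) ≠ 0`, `Q(w, y i) = 0` of minimal degree in `X`; its
derivative satisfies `Q_X(w, y i) ≠ 0`. As `Q(w, y i) = 0` is a relation of `y` over `F`, `Q(cw, c i) = 0`; its
coefficient at `s ^ j` is `Q_X(w, y i) γ i`, so `γ i = 0`, a contradiction. -/
def S_LOW : Prop :=
  ∀ (F M : Type) [Field F] [IsAlgClosed F] [CharZero F] [Field M] [Algebra F M] (y : Fin 2 → M),
    LinearIndependent F ![1, y 0, y 1] →
    (∃ P : MvPolynomial (Fin 2) F, P ≠ 0 ∧ MvPolynomial.aeval y P = 0) → ∀ c : Fin 2 → M[X],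
    (∀ l, (c l).coeff 0 = y l) →
    (∀ Q : MvPolynomial (Fin 2) F, MvPolynomial.aeval y Q = 0 → MvPolynomial.aeval c Q = 0) →
    ∀ j : ℕ, 0 < j → (∀ l k, 0 < k → k < j → (c l).coeff k = 0) → (∃ l, (c l).coeff j ≠ 0) →
    LinearIndependent F ![(c 0).coeff j, (c 1).coeff j]

end Pool.Agent.Zk18.Th
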