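import Pool.Agent.Zk18.Th.St
import Pool.Agent.Zk50.Th18.TERMS
import Pool.Agent.Zk80.Th18.LUR
import Pool.Agent.Zk18.Dg3

/-!
# Thin curves through special points are polynomially parametrised with small degrees
-/

set_option autoImplicit false

namespace Pool.Agent.Zk18.Th

open Polynomial

section

variable {K U : Type} [Field K] [Field U] [Algebra K U]

/-- a curve with `m` exponents through a generic point of a plane curve yields a parametrisation by
polynomials of degree at most `m` -/
theorem thin_param [IsAlgClosed K] [CharZero K] [IsAlgClosed U]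
    (y : Fin 2 → U) (i : Fin 2) (hi : Transcendental K (y i)) (P : MvPolynomial (Fin 2) K)
    (hP : P ≠ 0) (hPy : MvPolynomial.aeval y P = 0) (c : Fin 2 → U[X])
    (hc : ∀ l, (c l).coeff 0 = y l) (hcP : MvPolynomial.aeval c P = 0)
    (hne : ∃ l, c l ≠ C (y l)) :
    ∃ (t : U) (f : Fin 2 → K[X]), (∀ l, (f l).natDegree ≤ (sup c).card) ∧
      ∀ l, y l = aeval t (f l) := by
  classical
  obtain ⟨f, ℓ, hℓt, hℓ, hf⟩ := Pool.Agent.Zk80.Th18.t_LUR K U y i hi P hP hPy c hc hcP hne
  refine ⟨ℓ.coeff 0, f, fun l => ?_, fun l => ?_⟩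
  · refine (Pool.Agent.Zk50.Th18.t_TERMS K U (f l) ℓ hℓt hℓ).trans (Finset.card_le_card ?_)
    intro k hk
    rw [Finset.mem_erase, mem_support_iff, ← hf l] at hk
    exact (mem_sup c k).mpr ⟨hk.1, l, hk.2⟩
  · rw [← hc l, hf l, coeff_zero_eq_eval_zero, eval_comp, ← coeff_zero_eq_eval_zero, eval_map,
      aeval_def]

/-- linearly dependent numbers are polynomials of degree at most one in one number -/
theorem dep_param (y : Fin 2 → U) (i : Fin 2) (hi : Transcendental K (y i))
    (hdep : ¬ LinearIndependent K ![1, y 0, y 1]) :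
    ∃ (t : U) (f : Fin 2 → K[X]), (∀ l, (f l).natDegree ≤ 1) ∧ ∀ l, y l = aeval t (f l) := by
  classical
  rw [Fintype.not_linearIndependent_iff] at hdep
  obtain ⟨g, hg, i₀, hi₀⟩ := hdep
  rw [Fin.sum_univ_three, Algebra.smul_def, Algebra.smul_def, Algebra.smul_def] at hg
  have hg' : algebraMap K U (g 0) * 1 + algebraMap K U (g 1) * y 0 +
    algebraMap K U (g 2) * y 1 = 0 := hg
  by_cases h2 : g 2 = 0
  · have h1 : g 1 ≠ 0 := by
      intro h1
      rw [h1, h2, map_zero, zero_mul, zero_mul, add_zero, add_zero, mul_one, map_eq_zero] at hg'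
      fin_cases i₀
      · exact hi₀ hg'
      · exact hi₀ h1
      · exact hi₀ h2
    have h1' : algebraMap K U (g 1) ≠ 0 := (_root_.map_ne_zero _).mpr h1
    refine ⟨y 1, ![C (-(g 0) / g 1), X], fun l => ?_, fun l => ?_⟩
    · fin_cases l
      · exact (natDegree_C _).le.trans (Nat.zero_le _)
      · exact natDegree_X_le
    · fin_cases l
      · change y 0 = aeval (y 1) (C (-(g 0) / g 1))
        rw [aeval_C, map_div₀, map_neg, eq_div_iff h1']
        rw [h2, map_zero, zero_mul] at hg'
        linear_combination hg'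
      · change y 1 = aeval (y 1) X
        rw [aeval_X]
  · have h2' : algebraMap K U (g 2) ≠ 0 := (_root_.map_ne_zero _).mpr h2
    refine ⟨y 0, ![X, C (-(g 1) / g 2) * X + C (-(g 0) / g 2)], fun l => ?_, fun l => ?_⟩
    · fin_cases l
      · exact natDegree_X_le
      · exact natDegree_linear_le
    · fin_cases l
      · change y 0 = aeval (y 0) X
        rw [aeval_X]
      · change y 1 = aeval (y 0) (C (-(g 1) / g 2) * X + C (-(g 0) / g 2))
        rw [map_add, map_mul, aeval_X, aeval_C, aeval_C, map_div₀, map_neg, map_div₀, map_neg]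
        field_simp
        linear_combination hg'

/-- polynomials in a transcendental number move along a polynomial curve -/
theorem param_curve {m : ℕ} (y : Fin m → U) (i : Fin m) (hi : Transcendental K (y i)) (t : U)
    (f : Fin m → K[X]) (hy : ∀ l, y l = aeval t (f l)) :
    ∃ c : Fin m → U[X], (∀ l, (c l).coeff 0 = y l) ∧ (∃ l, c l ≠ C (y l)) ∧
      ∀ Q : MvPolynomial (Fin m) K, MvPolynomial.aeval y Q = 0 → MvPolynomial.aeval c Q = 0 := by
  classical
  have ht : Transcendental K t := by
    intro h
    apply hi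
    rw [hy i]
    have h1 : t ∈ Subalgebra.algebraicClosure K U := h
    have h2 : aeval t (f i) ∈ Subalgebra.algebraicClosure K U := by
      rw [aeval_eq_sum_range]
      exact Subalgebra.sum_mem _ fun k _ => Subalgebra.smul_mem _ (Subalgebra.pow_mem _ h1 k) _
    exact h2
  have hfi : (f i).natDegree ≠ 0 := by
    intro h0
    apply hi
    rw [hy i, eq_C_of_natDegree_eq_zero h0, aeval_C]
    exact isAlgebraic_algebraMap _
  refine ⟨fun l => ((f l).map (algebraMap K U)).comp (X + C t), fun l => ?_, ⟨i, fun h => ?_⟩,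
    fun Q hQ => ?_⟩
  · rw [coeff_zero_eq_eval_zero, eval_comp, eval_add, eval_X, eval_C, zero_add, hy l, eval_map,
      aeval_def]
  · have h1 := congrArg natDegree h
    rw [natDegree_comp, natDegree_X_add_C, mul_one, natDegree_map, natDegree_C] at h1
    exact hfi h1
  · have h1 : aeval t (MvPolynomial.aeval f Q) = 0 := by
      rw [← hQ]
      have h2 : ((aeval t : K[X] →ₐ[K] U).comp (MvPolynomial.aeval f)) =
          (MvPolynomial.aeval y : MvPolynomial (Fin m) K →ₐ[K] U) := by
        apply MvPolynomial.algHom_ext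
        intro l
        simp [hy]
      rw [← h2]
      rfl
    have h3 : MvPolynomial.aeval f Q = 0 := by
      by_contra h4
      exact ht ⟨_, h4, h1⟩
    let φ : K[X] →ₐ[K] U[X] := aeval (X + C t)
    have h4 : (φ.comp (MvPolynomial.aeval f)) =
        (MvPolynomial.aeval (fun l => ((f l).map (algebraMap K U)).comp (X + C t)) :
          MvPolynomial (Fin m) K →ₐ[K] U[X]) := by
      apply MvPolynomial.algHom_ext
      intro l
      rw [AlgHom.comp_apply, MvPolynomial.aeval_X, MvPolynomial.aeval_X]
      simp only [φ]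
      rw [comp, eval₂_map, aeval_def]
      congr 1
    rw [← h4, AlgHom.comp_apply, h3, map_zero]

end

end Pool.Agent.Zk18.Th
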