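import Pool.Agent.Zk18.Dg3
import Pool.Agent.Zk18.Th.Sd
import Pool.Agent.Zk18.Th.Sck
import Pool.Agent.Zk18.Th.Gai
import Pool.Agent.Zk27.Th18.GLI
import Pool.Agent.Zk99.Th18.LOWK
import Pool.Agent.Zk85.Th18.LIN

/-!
# Pairs of algebraically dependent elements of a finite-dimensional space
-/

set_option autoImplicit false

namespace Pool.Agent.Zk18.Th

open Polynomial

/-- the pairs without thin curves -/
def PtsV (V : Submodule (algebraicClosure ℚ ℂ) ℂ) (M D : ℕ) : Set (Fin (1 + 1) → ℂ) :=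
  {y | (∀ i, y i ∈ V) ∧
    (∃ i : Fin (1 + 1), AlgebraicIndependent (algebraicClosure ℚ ℂ) fun j => y (i.succAbove j)) ∧
    LinearIndependent (algebraicClosure ℚ ℂ) (Fin.cons 1 y : Fin (1 + 1 + 1) → ℂ) ∧
    ∃ P : MvPolynomial (Fin (1 + 1)) (algebraicClosure ℚ ℂ),
      P ≠ 0 ∧ (∀ i, P.degreeOf i ≤ D) ∧ MvPolynomial.aeval y P = 0 ∧
      ∀ c : Fin (1 + 1) → Polynomial ℂ, (∀ i, (c i).coeff 0 = y i) → MvPolynomial.aeval c P = 0 →
        (sup c).card + 4 ≤ max 5 (M + 1 - 1) → ∀ i, c i = Polynomial.C (y i)}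

/-- the space of a pair -/
noncomputable def WV (V : Submodule (algebraicClosure ℚ ℂ) ℂ) (y : Fin (1 + 1) → ℂ) :
    Submodule (algebraicClosure ℚ ℂ) ℂ :=
  V ⊓ Subalgebra.toSubmodule
    (Pool.Agent.Zk18.Md.KK (algebraicClosure ℚ ℂ) (Set.range y)).toSubalgebra

theorem WV_dep (V : Submodule (algebraicClosure ℚ ℂ) ℂ) (y : Fin (1 + 1) → ℂ)
    (P : MvPolynomial (Fin (1 + 1)) (algebraicClosure ℚ ℂ)) (hP : P ≠ 0)
    (hPy : MvPolynomial.aeval y P = 0) (x z : ℂ) (hx : x ∈ WV V y) (hz : z ∈ WV V y) :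
    ¬ AlgebraicIndependent (algebraicClosure ℚ ℂ) ![x, z] := by
  classical
  intro hind
  have h2 := Pool.Agent.Zk18.Fd.rank_le y P hP hPy
  have h3 : (AlgebraicIndependent.matroid (algebraicClosure ℚ ℂ) ℂ).Indep
      (Set.range ![x, z]) := by
    rw [AlgebraicIndependent.matroid_indep_iff]
    exact hind.coe_range
  have h4 : Set.range ![x, z] ⊆
      (AlgebraicIndependent.matroid (algebraicClosure ℚ ℂ) ℂ).closure (Set.range y) := by
    rintro _ ⟨i, rfl⟩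
    rw [← Pool.Agent.Zk18.Md.mem_KK]
    fin_cases i
    · exact hx.2
    · exact hz.2
  have h5 := h3.encard_le_eRk_of_subset h4
  rw [Matroid.eRk_closure_eq] at h5
  have h6 := h5.trans h2
  have h7 : (Set.range ![x, z]).encard = ((2 : ℕ) : ℕ∞) := by
    rw [← Set.image_univ, hind.injective.encard_image, Set.encard_univ]
    simp
  rw [h7] at h6
  have h8 : 2 ≤ 1 := by exact_mod_cast h6
  omega

/-- **Pairs.** -/
theorem pairs (V : Submodule (algebraicClosure ℚ ℂ) ℂ)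
    (hV : FiniteDimensional (algebraicClosure ℚ ℂ) V) (h1V : (1 : ℂ) ∈ V) :
    ∃ 𝒯 : Set (Submodule (algebraicClosure ℚ ℂ) ℂ), 𝒯.Finite ∧
      (∀ T ∈ 𝒯, T ≤ V ∧ ∀ x ∈ T, ∀ z ∈ T,
        ¬ AlgebraicIndependent (algebraicClosure ℚ ℂ) ![x, z]) ∧
      ∀ u ∈ V, ∀ v ∈ V, (∃ P : MvPolynomial (Fin 2) (algebraicClosure ℚ ℂ), P ≠ 0 ∧
        MvPolynomial.aeval ![u, v] P = 0) →
        (∃ T ∈ 𝒯, u ∈ T ∧ v ∈ T) ∨ ∃ (f g : Polynomial (algebraicClosure ℚ ℂ)) (t : ℂ),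
          f.natDegree ≤ max 1 (Module.finrank (algebraicClosure ℚ ℂ) V - 4) ∧
          g.natDegree ≤ max 1 (Module.finrank (algebraicClosure ℚ ℂ) V - 4) ∧
          u = aeval t f ∧ v = aeval t g := by
  classical
  have hKa : IsAlgClosed (algebraicClosure ℚ ℂ) := (algebraicClosure.isAlgClosure ℚ ℂ).isAlgClosed
  obtain ⟨N, hN⟩ : ∃ N, N = Module.finrank (algebraicClosure ℚ ℂ) V := ⟨_, rfl⟩
  rw [← hN]
  obtain ⟨D, hD⟩ := Pool.Agent.Zk18.Dg.degree_bound V hV h1V 1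
  refine ⟨{W | ∃ y ∈ PtsV V N D, W = WV V y}, ?_, ?_, ?_⟩
  · -- finiteness
    have h1 := Pool.Agent.Zk18.Thk.encard_fields Pool.Agent.Zk99.Th18.t_LOWK
      Pool.Agent.Zk27.Th18.t_GLI (gai Pool.Agent.Zk27.Th18.t_GLI) V hV h1V N hN.symm.le 1 D
    have h2 : {E : Set ℂ | ∃ y ∈ PtsV V N D, E = Pool.Agent.Zk18.Fd.Fld y}.Finite := by
      apply Set.finite_of_encard_le_coe
      refine le_trans (Set.encard_le_encard ?_) h1
      rintro E ⟨y, ⟨hyV, hyI, hind, P, hP, hPD, hPy, hNC⟩, rfl⟩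
      exact ⟨y, P, hyV, hyI, hind, hP, hPD, hPy, hNC, rfl⟩
    choose! g hg hgW using
      fun (W : Submodule (algebraicClosure ℚ ℂ) ℂ) (hW : ∃ y ∈ PtsV V N D, W = WV V y) => hW
    refine Set.Finite.of_finite_image (f := fun W => Pool.Agent.Zk18.Fd.Fld (g W))
      (h2.subset ?_) ?_
    · rintro _ ⟨W, hW, rfl⟩
      exact ⟨g W, hg W hW, rfl⟩
    · intro W hW W' hW' h
      have h' : Pool.Agent.Zk18.Fd.Fld (g W) = Pool.Agent.Zk18.Fd.Fld (g W') := h
      rw [Pool.Agent.Zk18.Fd.Fld_eq, Pool.Agent.Zk18.Fd.Fld_eq] at h'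
      have h3 := SetLike.coe_injective h'
      rw [hgW W hW, hgW W' hW', WV, WV, h3]
  · rintro T ⟨y, ⟨-, -, -, P, hP, -, hPy, -⟩, rfl⟩
    exact ⟨inf_le_left, fun x hx z hz => WV_dep V y P hP hPy x z hx hz⟩
  · rintro u hu v hv ⟨P₀, hP₀, hP₀y⟩
    obtain ⟨y, hy⟩ : ∃ y : Fin (1 + 1) → ℂ, y = ![u, v] := ⟨_, rfl⟩
    have hy0 : y 0 = u := by rw [hy]; rfl
    have hy1 : y 1 = v := by rw [hy]; rfl
    have hyV : ∀ i, y i ∈ V := by
      intro i
      fin_cases i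
      · exact hy0 ▸ hu
      · exact hy1 ▸ hv
    rw [← hy] at hP₀y
    by_cases htr : ∃ i : Fin (1 + 1), Transcendental (algebraicClosure ℚ ℂ) (y i)
    swap
    · -- both are constants
      right
      push Not at htr
      have hc : ∀ i, ∃ a : algebraicClosure ℚ ℂ, algebraMap _ ℂ a = y i := by
        intro i
        have h1 : IsAlgebraic (algebraicClosure ℚ ℂ) (y i) := by
          have h2 := htr i
          rw [Transcendental, not_not] at h2
          exact h2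
        exact minpoly.mem_range_of_degree_eq_one _ _
          (IsAlgClosed.degree_eq_one_of_irreducible _ (minpoly.irreducible h1.isIntegral))
      obtain ⟨a, ha⟩ := hc 0
      obtain ⟨b, hb⟩ := hc 1
      refine ⟨C a, C b, 0, ?_, ?_, ?_, ?_⟩
      · rw [natDegree_C]; exact Nat.zero_le _
      · rw [natDegree_C]; exact Nat.zero_le _
      · rw [aeval_C, ha, hy0]
      · rw [aeval_C, hb, hy1]
    obtain ⟨i₁, hi₁⟩ := htr
    have hai : ∃ i : Fin (1 + 1), AlgebraicIndependent (algebraicClosure ℚ ℂ)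
        fun j => y (i.succAbove j) := by
      obtain ⟨i', hi'⟩ : ∃ i' : Fin (1 + 1), i'.succAbove (0 : Fin 1) = i₁ := by
        fin_cases i₁
        · exact ⟨1, rfl⟩
        · exact ⟨0, rfl⟩
      refine ⟨i', ?_⟩
      rw [algebraicIndependent_unique_type_iff]
      have h1 : (default : Fin 1) = 0 := rfl
      rw [h1, hi']
      exact hi₁
    by_cases hlin : LinearIndependent (algebraicClosure ℚ ℂ) (Fin.cons 1 y : Fin (1 + 1 + 1) → ℂ)
    swap
    · right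
      have h1 : ¬ LinearIndependent (algebraicClosure ℚ ℂ) ![1, y 0, y 1] := by
        intro h2
        apply hlin
        convert h2 using 1
        funext i
        fin_cases i <;> rfl
      obtain ⟨t, f, hf, hyf⟩ := dep_param y i₁ hi₁ h1
      exact ⟨f 0, f 1, t, (hf 0).trans (le_max_left _ _), (hf 1).trans (le_max_left _ _),
        hy0 ▸ hyf 0, hy1 ▸ hyf 1⟩
    have hi' := hai
    obtain ⟨i, hi⟩ := hi'
    obtain ⟨P, hP, hPD, hPy⟩ := hD y hyV hai ⟨P₀, hP₀, hP₀y⟩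
    by_cases hNC : ∀ c : Fin (1 + 1) → Polynomial ℂ, (∀ i, (c i).coeff 0 = y i) →
        MvPolynomial.aeval c P = 0 → (sup c).card + 4 ≤ max 5 (N + 1 - 1) →
          ∀ i, c i = Polynomial.C (y i)
    · left
      refine ⟨WV V y, ⟨y, ⟨hyV, hai, hlin, P, hP, hPD, hPy, hNC⟩, rfl⟩, ?_, ?_⟩
      · exact ⟨hu, Pool.Agent.Zk18.Fd.mem_KK_of_mem ⟨0, hy0⟩⟩
      · exact ⟨hv, Pool.Agent.Zk18.Fd.mem_KK_of_mem ⟨1, hy1⟩⟩
    · right
      push Not at hNC
      obtain ⟨c, hc, hcP, hcard, hne⟩ := hNC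
      obtain ⟨t, f, hf, hyf⟩ := thin_param y i₁ hi₁ P hP hPy c hc hcP hne
      have h1 : (sup c).card ≤ max 1 (N - 4) := by
        rcases le_max_iff.mp hcard with h | h
        · exact le_trans (by omega) (le_max_left _ _)
        · exact le_trans (by omega) (le_max_right _ _)
      exact ⟨f 0, f 1, t, (hf 0).trans h1, (hf 1).trans h1, hy0 ▸ hyf 0, hy1 ▸ hyf 1⟩

end Pool.Agent.Zk18.Th
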