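import Pool.Agent.Zk18.Th.Pc

/-!
# Elements with different orders are linearly independent
-/

set_option autoImplicit false

namespace Pool.Agent.Zk18.Th

open HahnSeries

section

variable {F M : Type} [Field F] [Field M] [Algebra F M]

/-- the linear combinations of the `β j` with coefficients in `F` -/
noncomputable def Lm {N : ℕ} (β : Fin N → HahnSeries ℚ M) (g : Fin N → F) : HahnSeries ℚ M :=
  ∑ j, C (algebraMap F M (g j)) * β j

theorem Lm_sum {N : ℕ} (β : Fin N → HahnSeries ℚ M) {ι : Type} (s : Finset ι) (d : ι → F)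
    (φ : ι → Fin N → F) :
    Lm β (∑ x ∈ s, d x • φ x) = ∑ x ∈ s, C (algebraMap F M (d x)) * Lm β (φ x) := by
  simp only [Lm, Finset.mul_sum, Finset.sum_apply, Pi.smul_apply, smul_eq_mul, map_sum, map_mul,
    Finset.sum_mul]
  rw [Finset.sum_comm]
  refine Finset.sum_congr rfl fun x _ => Finset.sum_congr rfl fun j _ => ?_
  ring

theorem coeff_C_mul' (a : M) (x : HahnSeries ℚ M) (q : ℚ) : (C a * x).coeff q = a * x.coeff q := by
  rw [C_mul_eq_smul, coeff_smul, smul_eq_mul]

theorem count {N : ℕ} (β : Fin N → HahnSeries ℚ M) (g : Fin 3 → Fin N → F) (a : Fin 3 → M)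
    (hg : ∀ i, Lm β (g i) = C (a i)) (ha : LinearIndependent F a) (S : Finset ℕ) (hS : 0 ∉ S)
    (μ : ℚ) (hμ : 0 < μ) (h : ℕ → Fin N → F)
    (h1 : ∀ k ∈ S, ((-(k * μ) : ℚ) : WithTop ℚ) ≤ (Lm β (h k)).orderTop)
    (h2 : ∀ k ∈ S, (Lm β (h k)).coeff (-(k * μ)) ≠ 0) (j : ℕ) (hj : j ∈ S) (h' : Fin N → F)
    (h1' : ((-(j * μ) : ℚ) : WithTop ℚ) ≤ (Lm β h').orderTop)
    (hind : LinearIndependent F ![(Lm β (h j)).coeff (-(j * μ)), (Lm β h').coeff (-(j * μ))]) :
    S.card + 4 ≤ N := by
  classical
  let φ : (Fin 3 ⊕ S) ⊕ Unit → (Fin N → F) :=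
    Sum.elim (Sum.elim g (fun k => h k)) (fun _ => h')
  have hφ : LinearIndependent F φ := by
    rw [Fintype.linearIndependent_iff]
    intro d hd
    have h0 : Lm β (∑ x, d x • φ x) = 0 := by
      rw [hd, Lm]
      simp
    rw [Lm_sum, Fintype.sum_sum_type, Fintype.sum_sum_type] at h0
    simp only [φ, Sum.elim_inl, Sum.elim_inr, Finset.univ_unique, Finset.sum_singleton, hg] at h0
    set d' := d (Sum.inr default) with hd'
    -- the coefficients at negative exponents
    have hcoef : ∀ q : ℕ, 0 < q →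
        (∑ k : S, algebraMap F M (d (Sum.inl (Sum.inr k))) * (Lm β (h k)).coeff (-(q * μ))) +
          algebraMap F M d' * (Lm β h').coeff (-(q * μ)) = 0 := by
      intro q hq
      have hq' : (0 : ℚ) < q := by exact_mod_cast hq
      have e1 := congrArg (fun x : HahnSeries ℚ M => x.coeff (-(q * μ))) h0
      simp only [coeff_add, coeff_sum, coeff_C_mul', coeff_zero] at e1
      have e2 : ∑ i : Fin 3, algebraMap F M (d (Sum.inl (Sum.inl i))) * (C (a i)).coeff (-(q * μ)) =
          0 := by
        apply Finset.sum_eq_zero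
        intro i _
        rw [C_apply, coeff_single_of_ne, mul_zero]
        have : 0 < (q : ℚ) * μ := by positivity
        intro h3
        linarith
      rw [e2, zero_add] at e1
      exact e1
    have hsmall : ∀ (x : HahnSeries ℚ M) (k q : ℕ), ((-(k * μ) : ℚ) : WithTop ℚ) ≤ x.orderTop →
        k < q → x.coeff (-(q * μ)) = 0 := by
      intro x k q hx hkq
      apply coeff_eq_zero_of_lt_orderTop
      refine lt_of_lt_of_le ?_ hx
      have : (k : ℚ) < q := by exact_mod_cast hkq
      have : (-(q * μ) : ℚ) < -(k * μ) := by nlinarith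
      exact_mod_cast this
    have hzero : (∀ k : S, d (Sum.inl (Sum.inr k)) = 0) ∧ d' = 0 := by
      by_contra hno
      let B : Finset ℕ := S.filter fun k =>
        (∃ hk : k ∈ S, d (Sum.inl (Sum.inr ⟨k, hk⟩)) ≠ 0) ∨ (k = j ∧ d' ≠ 0)
      have hB : B.Nonempty := by
        rw [not_and_or] at hno
        rcases hno with hno | hno
        · push Not at hno
          obtain ⟨k, hk⟩ := hno
          exact ⟨k, Finset.mem_filter.mpr ⟨k.2, Or.inl ⟨k.2, hk⟩⟩⟩
        · exact ⟨j, Finset.mem_filter.mpr ⟨hj, Or.inr ⟨rfl, hno⟩⟩⟩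
      obtain ⟨q, hqB, hqmax⟩ := B.exists_max_image id hB
      have hqS : q ∈ S := (Finset.mem_filter.mp hqB).1
      have hq0 : 0 < q := Nat.pos_of_ne_zero (fun h3 => hS (h3 ▸ hqS))
      have hbig : ∀ k : S, q < k → d (Sum.inl (Sum.inr k)) = 0 := by
        intro k hk
        by_contra h3
        have h4 := hqmax k (Finset.mem_filter.mpr ⟨k.2, Or.inl ⟨k.2, h3⟩⟩)
        simp only [id] at h4
        omega
      have hsum : (∑ k : S, algebraMap F M (d (Sum.inl (Sum.inr k))) *
          (Lm β (h k)).coeff (-(q * μ))) =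
            algebraMap F M (d (Sum.inl (Sum.inr ⟨q, hqS⟩))) * (Lm β (h q)).coeff (-(q * μ)) := by
        rw [Finset.sum_eq_single (⟨q, hqS⟩ : S)]
        · intro k _ hk
          rcases lt_trichotomy (k : ℕ) q with h3 | h3 | h3
          · rw [hsmall _ k q (h1 k k.2) h3, mul_zero]
          · exact absurd (Subtype.ext h3) hk
          · rw [hbig k h3, map_zero, zero_mul]
        · intro h3
          exact absurd (Finset.mem_univ _) h3
      have h3 := hcoef q hq0
      rw [hsum] at h3
      rcases lt_trichotomy j q with hjq | hjq | hjq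
      · rw [hsmall _ j q h1' hjq, mul_zero, add_zero] at h3
        have h4 : d (Sum.inl (Sum.inr ⟨q, hqS⟩)) = 0 := by
          rcases mul_eq_zero.mp h3 with h5 | h5
          · exact (map_eq_zero _).mp h5
          · exact absurd h5 (h2 q hqS)
        rcases (Finset.mem_filter.mp hqB).2 with ⟨hk, h5⟩ | ⟨h5, -⟩
        · exact h5 h4
        · omega
      · subst hjq
        have h4 := LinearIndependent.pair_iff.mp hind (d (Sum.inl (Sum.inr ⟨j, hqS⟩))) d' (by
          rw [Algebra.smul_def, Algebra.smul_def]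
          exact h3)
        rcases (Finset.mem_filter.mp hqB).2 with ⟨hk, h5⟩ | ⟨-, h5⟩
        · exact h5 h4.1
        · exact h5 h4.2
      · have hd0 : d' = 0 := by
          by_contra h5
          have h4 := hqmax j (Finset.mem_filter.mpr ⟨hj, Or.inr ⟨rfl, h5⟩⟩)
          simp only [id] at h4
          omega
        rw [hd0, map_zero, zero_mul, add_zero] at h3
        have h4 : d (Sum.inl (Sum.inr ⟨q, hqS⟩)) = 0 := by
          rcases mul_eq_zero.mp h3 with h5 | h5
          · exact (map_eq_zero _).mp h5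
          · exact absurd h5 (h2 q hqS)
        rcases (Finset.mem_filter.mp hqB).2 with ⟨hk, h5⟩ | ⟨h5, -⟩
        · exact h5 h4
        · omega
    obtain ⟨hz1, hz2⟩ := hzero
    have hthree : ∀ i : Fin 3, d (Sum.inl (Sum.inl i)) = 0 := by
      have e1 : ∑ i : Fin 3, d (Sum.inl (Sum.inl i)) • a i = 0 := by
        have e2 := congrArg (fun x : HahnSeries ℚ M => x.coeff 0) h0
        simp only [hz1, hz2, map_zero, zero_mul, Finset.sum_const_zero, add_zero, coeff_sum,
          coeff_C_mul', coeff_zero] at e2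
        rw [← e2]
        apply Finset.sum_congr rfl
        intro i _
        rw [Algebra.smul_def, C_apply, coeff_single_same]
      exact Fintype.linearIndependent_iff.mp ha _ e1
    rintro ((i | k) | u)
    · exact hthree i
    · exact hz1 k
    · exact hz2
  have h3 := hφ.fintype_card_le_finrank
  rw [Module.finrank_fin_fun] at h3
  simp only [Fintype.card_sum, Fintype.card_fin, Fintype.card_coe, Fintype.card_unit] at h3
  omega

end

end Pool.Agent.Zk18.Th
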