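import Pool.Agent.Zk18.Fd7
import Pool.Agent.Zk18.Dg3

/-!
Statements (NOT results) of four modules for MP_60829e_nt: the number of exponents of the polynomial
curves, for all transcendence degrees.
-/

set_option autoImplicit false

namespace Pool.Agent.Zk18.Th

open TensorProduct Pool.Agent.Zk18.Fd

/-- GLI: elements of `A ⊗ L` whose values at the special point `s` are linearly independent over `K` are
linearly independent over `F` at the generic point.

Proof. Let `ψ : L → (κ → K)` be `K`-linear with `ψ (sg L s (τ i)) = Pi.single i 1`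
(`LinearMap.exists_leftInverse_of_injective`). Let `m i i' ∈ A` be the image of `τ i` under
`A ⊗ L → A ⊗ K = A`, `id ⊗ ψ_{i'}`. Then `s (m i i') = ψ (sg L s (τ i)) i' = 1` or `0`, so `s (det m) = 1`,
`det m ≠ 0`, `ι (det m) ≠ 0`. If `∑ g i • pm (τ i) = 0` with `g i ∈ F`, then by injectivity of `pm`
`∑ g i • (ι ⊗ id) (τ i) = 0` in `F ⊗ L`; apply `id_F ⊗ ψ_{i'}` (`LinearMap.baseChange F`, `rid`):
`∑ g i * ι (m i i') = 0`, so `g = 0` (`Matrix.eq_zero_of_vecMul_eq_zero`). (Compare `generic_ind` in
`Zk18/Th/Sp.lean`.) -/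
def S_GLI : Prop :=
  ∀ (K F L E A : Type) [Field K] [Field F] [Field L] [Field E] [CharZero K]
    [Algebra K F] [Algebra K L] [Algebra F E] [Algebra L E] [Algebra K E]
    [IsScalarTower K F E] [IsScalarTower K L E] [CommRing A] [Algebra K A],
    Function.Injective (pm K F L E) → ∀ ι : A →ₐ[K] F, Function.Injective ι →
    ∀ (s : A →ₐ[K] K) (κ : Type) [Fintype κ] (τ : κ → A ⊗[K] L),
    LinearIndependent K (fun i => sg L s (τ i)) →
    LinearIndependent F (fun i => pm K F L E (Algebra.TensorProduct.map ι (AlgHom.id K L) (τ i)))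

/-- GAI: the same for algebraic independence.

Proof. If `P ≠ 0` over `F` vanishes at the values in `E`, apply `S_GLI` to the products
`∏ i, τ i ^ m i`, `m ∈ P.support` (`sg L s` and `pm ∘ map` are algebra homomorphisms; at `s` the
products are linearly independent over `K` as the values are algebraically independent). -/
def S_GAI : Prop :=
  ∀ (K F L E A : Type) [Field K] [Field F] [Field L] [Field E] [CharZero K]
    [Algebra K F] [Algebra K L] [Algebra F E] [Algebra L E] [Algebra K E]
    [IsScalarTower K F E] [IsScalarTower K L E] [CommRing A] [Algebra K A],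
    Function.Injective (pm K F L E) → ∀ ι : A →ₐ[K] F, Function.Injective ι →
    ∀ (s : A →ₐ[K] K) (m : ℕ) (τ : Fin m → A ⊗[K] L),
    AlgebraicIndependent K (fun i => sg L s (τ i)) →
    AlgebraicIndependent F
      (fun i => pm K F L E (Algebra.TensorProduct.map ι (AlgHom.id K L) (τ i)))

/-- LOWK: the first nonconstant coefficients of a curve through a point of transcendence degree `k` span
a space of dimension at least two over `F`, or there is a line through the point.

Proof. Let `γ l = (c l).coeff j`. If all `γ l` are `F`-multiples of one `γ l₀ ≠ 0` (negation of the first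
case), `γ l = a l • γ l₀`, `a l₀ = 1`. Let `P ≠ 0`, `P(y) = 0`, of minimal total degree. The coefficient of
`P(c)` at `X ^ j` is `∑ l, (∂_l P)(y) * γ l` (induction on `P`), so `(∑ l, a l ∂_l P)(y) = 0`, and
`∑ l, a l ∂_l P` has smaller degree, so it is `0`. So the derivative of `q = P(y + a X) ∈ M[X]`, which is
`(∑ l, a l ∂_l P)(y + a X)`, is zero, `q` is constant, `q = P(y) = 0`. By `Pool.Agent.Zk18.Dg.curve_transfer`
(`Zk18/Dg3.lean`) all relations of `y` are true along `y + a X`. -/
def S_LOWK : Prop :=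
  ∀ (F M : Type) [Field F] [CharZero F] [Field M] [Algebra F M] (k : ℕ) (y : Fin (k + 1) → M)
    (i : Fin (k + 1)), AlgebraicIndependent F (fun j => y (i.succAbove j)) →
    (∃ P : MvPolynomial (Fin (k + 1)) F, P ≠ 0 ∧ MvPolynomial.aeval y P = 0) →
    ∀ c : Fin (k + 1) → Polynomial M, (∀ l, (c l).coeff 0 = y l) →
    (∀ Q : MvPolynomial (Fin (k + 1)) F, MvPolynomial.aeval y Q = 0 → MvPolynomial.aeval c Q = 0) →
    ∀ j : ℕ, 0 < j → (∀ l r, 0 < r → r < j → (c l).coeff r = 0) → (∃ l, (c l).coeff j ≠ 0) →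
    (∃ l l', LinearIndependent F ![(c l).coeff j, (c l').coeff j]) ∨
      ∃ a : Fin (k + 1) → F, a ≠ 0 ∧ ∀ Q : MvPolynomial (Fin (k + 1)) F,
        MvPolynomial.aeval y Q = 0 → MvPolynomial.aeval
          (fun l => Polynomial.C (y l) + Polynomial.C (algebraMap F M (a l)) * Polynomial.X) Q = 0

/-- LIN: if `1, y_0, ..., y_k` are linearly dependent and `y` has transcendence degree `k ≥ 1`, all
relations of `y` are true along a line.

Proof. `α + ∑ l, β l y l = 0` with `(α, β) ≠ 0`; choose `a ≠ 0` with `∑ l, β l a l = 0` (`k + 1 ≥ 2`). The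
polynomial `P = α + ∑ β l X l ≠ 0` vanishes at `y` and along `y + a X`; use
`Pool.Agent.Zk18.Dg.curve_transfer` (`Zk18/Dg3.lean`). -/
def S_LIN : Prop :=
  ∀ (K U : Type) [Field K] [Field U] [Algebra K U] (k : ℕ) (_ : 0 < k) (y : Fin (k + 1) → U)
    (i : Fin (k + 1)), AlgebraicIndependent K (fun j => y (i.succAbove j)) →
    ¬ LinearIndependent K (Fin.cons 1 y : Fin (k + 1 + 1) → U) →
    ∃ a : Fin (k + 1) → K, a ≠ 0 ∧ ∀ Q : MvPolynomial (Fin (k + 1)) K,
      MvPolynomial.aeval y Q = 0 → MvPolynomial.aeval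
        (fun l => Polynomial.C (y l) + Polynomial.C (algebraMap K U (a l)) * Polynomial.X) Q = 0

end Pool.Agent.Zk18.Th
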