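import Pool.Agent.Zk18.Th.St
import Pool.Agent.Zk18.Th.Ck
import Pool.Agent.Zk18.Th.Stm2

/-!
# Stability under derivations if there is no thin polynomial curve (any transcendence degree)
-/

set_option autoImplicit false
set_option linter.unusedSectionVars false

attribute [-instance] HahnSeries.powerSeriesAlgebra

namespace Pool.Agent.Zk18.Th

open HahnSeries TensorProduct Pool.Agent.Zk18 Pool.Agent.Zk18.Md Pool.Agent.Helper165.P1
  Pool.Agent.Zk18.Fd

section

variable {K F L E : Type} [Field K] [Field F] [Field L] [Field E] [CharZero K]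
  [Algebra K F] [Algebra K L] [Algebra F E] [Algebra L E] [Algebra K E]
  [IsScalarTower K F E] [IsScalarTower K L E]

theorem stable_k (hLOW : S_LOWK) [Countable E] [IsAlgClosed E]
    (hdis : Function.Injective (pm K F L E)) {k : ℕ}
    {N : ℕ} (b : Fin N → L) (f : Fin (k + 1) → Fin N → F) (e : Fin N → F) (he : (lc b e : E) = 1)
    (hind : LinearIndependent F (Fin.cons 1 (fun i => (lc b (f i) : E)) : Fin (k + 1 + 1) → E))
    (hrel : ∃ P : MvPolynomial (Fin (k + 1)) F, P ≠ 0 ∧
      MvPolynomial.aeval (fun i => (lc b (f i) : E)) P = 0)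
    (hai : ∃ i : Fin (k + 1), AlgebraicIndependent F (fun j => (lc b (f (i.succAbove j)) : E)))
    (hNT : NT F (max 5 (N + 1 - k)) (fun i => (lc b (f i) : E)))
    (D : F →+ F) (hD : ∀ a b, D (a * b) = D a * b + a * D b)
    (hDK : ∀ k : K, D (algebraMap K F k) = 0) (g : Fin N → F)
    (hg : (lc b g : E) ∈ KK F (Set.range fun i => (lc b (f i) : E))) :
    (lc b (fun j => D (g j)) : E) ∈ KK F (Set.range fun i => (lc b (f i) : E)) := by
  classical
  by_contra hcon
  have hcE : CharZero E := charZero_of_injective_algebraMap (algebraMap K E).injective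
  have hcF : CharZero F := charZero_of_injective_algebraMap (algebraMap K F).injective
  obtain ⟨y, hy⟩ : ∃ y : Fin (k + 1) → E, y = fun i => (lc b (f i) : E) := ⟨_, rfl⟩
  have hyi : ∀ i, (lc b (f i) : E) = y i := fun i => by rw [hy]
  simp only [hyi] at hai
  rw [← hy] at hcon hg hrel hNT hind
  let f' : Fin (k + 1 + 1) → Fin N → F := Fin.snoc f g
  let y' : Fin (k + 1 + 1) → E := Fin.snoc y (lc b g)
  have hy' : ∀ i, y' i = lc b (f' i) := by
    intro i
    refine Fin.lastCases ?_ (fun i => ?_) i
    · simp only [y', f']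
      rw [Fin.snoc_last, Fin.snoc_last]
    · simp only [y', f']
      rw [Fin.snoc_castSucc, Fin.snoc_castSucc, hy]
  let M := KK F (Set.range y)
  have hcM : CharZero M := charZero_of_injective_algebraMap (algebraMap F M).injective
  have hMc : Countable M := inferInstance
  have hMa : IsAlgClosed M := isAlgClosed_KK _
  let _ : Algebra K M := ((algebraMap F M).comp (algebraMap K F)).toAlgebra
  have hKFM : IsScalarTower K F M := IsScalarTower.of_algebraMap_eq fun _ => rfl
  have hKM : ∀ k : K, algebraMap M E (algebraMap K M k) = algebraMap K E k := by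
    intro k
    rw [IsScalarTower.algebraMap_apply K F E]
    rfl
  obtain ⟨δ, hδ, hδF⟩ := ext_der (F := F) (M := M) D hD
  have hz : (lc b (fun j => D (g j)) : E) ∉ Set.range (algebraMap M E) := by
    rintro ⟨a, ha⟩
    apply hcon
    rw [← ha]
    exact a.2
  obtain ⟨θ, hθ⟩ := arc (K := M) (E := E) _ hz
  let r : L →+* HahnSeries ℚ M :=
    ((Pui M).subtype : Pui M →+* HQ M).comp ((θ : E →+* Pui M).comp (algebraMap L E))
  have hr : ∀ l, r l = ((θ (algebraMap L E l) : Pui M) : HQ M) := fun l => rfl
  have hθC : ∀ a : M, ((θ (algebraMap M E a) : Pui M) : HQ M) = C a := by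
    intro a
    rw [θ.commutes, coe_algebraMap_Pui]
  have hym2 : ∀ i, y i ∈ M := fun i => mem_KK_of_mem ⟨i, rfl⟩
  have hym : ∀ i, y' i ∈ M := by
    intro i
    refine Fin.lastCases ?_ (fun i => ?_) i
    · simp only [y']
      rw [Fin.snoc_last]
      exact hg
    · simp only [y']
      rw [Fin.snoc_castSucc]
      exact hym2 i
  have hsum : ∀ g : Fin N → F, ∑ j, C (algebraMap F M (g j)) * r (b j) =
      ((θ (lc b g : E) : Pui M) : HQ M) := by
    intro g
    rw [lc, map_sum]
    have h1 : ((∑ j, θ (algebraMap F E (g j) * algebraMap L E (b j)) : Pui M) : HQ M) =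
        ∑ j, ((θ (algebraMap F E (g j) * algebraMap L E (b j)) : Pui M) : HQ M) :=
      map_sum ((Pui M).subtype) _ _
    rw [h1]
    apply Finset.sum_congr rfl
    intro j _
    rw [map_mul, Subfield.coe_mul, ← hθC, hr]
    rfl
  obtain ⟨c, μ, hc0, ⟨i₁, k₁, hk₁, hck⟩, hcQ, hμ, hord⟩ := polynomial_curve2 (K := K) (F := F)
    (L := L) (M := M)
    δ hδ (fun k => by
      change δ (algebraMap F M (algebraMap K F k)) = 0
      rw [hδF, hDK, map_zero]) D hδF r (fun k => by
      rw [hr, ← hθC, hKM, ← IsScalarTower.algebraMap_apply K L E]) b f'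
    (fun i => ⟨y' i, hym i⟩) (fun i => by
      rw [hsum, ← hθC, ← hy' i]
      rfl) (Fin.last (k + 1)) (by
      have h1 : ∀ j, C (δ (algebraMap F M (f' (Fin.last (k + 1)) j))) * r (b j) =
          C (algebraMap F M (D (g j))) * r (b j) := by
        intro j
        rw [hδF]
        simp only [f']
        rw [Fin.snoc_last]
      rw [Finset.sum_congr rfl (fun j _ => h1 j), hsum (fun j => D (g j)), hθ]
      have h2 : ((tinv : Pui M) : HQ M).orderTop = ((-1 : ℚ) : WithTop ℚ) := by
        rw [← vP_apply]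
        exact vP_tinv
      rw [h2]
      exact_mod_cast (by norm_num : (-1 : ℚ) < 0))
  -- the relations of the three numbers
  have hcQ3 : ∀ Q : MvPolynomial (Fin (k + 1 + 1)) F, MvPolynomial.aeval y' Q = 0 →
      MvPolynomial.aeval c Q = 0 := by
    intro Q hQ
    apply hcQ
    apply hdis
    rw [map_zero, aeval_pm, ← hQ]
    have h1 : (fun i => pm K F L E (∑ j, f' i j ⊗ₜ[K] b j)) = y' := by
      funext i
      rw [map_sum, hy' i]
      apply Finset.sum_congr rfl
      intro j _
      rw [pm_tmul]
    rw [h1]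
  -- the curve in `E`
  let cE : Fin (k + 1 + 1) → Polynomial E := fun i => (c i).map (algebraMap M E)
  have hcE0 : ∀ i, (cE i).coeff 0 = y' i := by
    intro i
    simp only [cE]
    rw [Polynomial.coeff_map, hc0]
    rfl
  have hcEQ : ∀ Q : MvPolynomial (Fin (k + 1 + 1)) F, MvPolynomial.aeval y' Q = 0 →
      MvPolynomial.aeval cE Q = 0 := by
    intro Q hQ
    have h6 := congrArg (Polynomial.mapRingHom (algebraMap M E)) (hcQ3 Q hQ)
    rw [map_zero, MvPolynomial.aeval_def, MvPolynomial.eval₂_comp_left] at h6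
    rw [MvPolynomial.aeval_def, ← h6]
    congr 1
    ext a
    rw [RingHom.comp_apply, Polynomial.coe_mapRingHom, Polynomial.algebraMap_apply,
      Polynomial.algebraMap_apply, Polynomial.map_C]
    rfl
  -- the first two coordinates
  let c2 : Fin (k + 1) → Polynomial M := fun i => c (Fin.castSucc i)
  let c2E : Fin (k + 1) → Polynomial E := fun i => cE (Fin.castSucc i)
  have hy2 : ∀ i : Fin (k + 1), y' (Fin.castSucc i) = y i := by
    intro i
    simp only [y']
    rw [Fin.snoc_castSucc]
  have hQ2 : ∀ Q : MvPolynomial (Fin (k + 1)) F, MvPolynomial.aeval y Q = 0 →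
      MvPolynomial.aeval y' (MvPolynomial.rename Fin.castSucc Q) = 0 := by
    intro Q hQ
    rw [MvPolynomial.aeval_rename, ← hQ]
    congr 2
    funext i
    rw [Function.comp_apply, hy2]
  have hc2Q : ∀ Q : MvPolynomial (Fin (k + 1)) F, MvPolynomial.aeval y Q = 0 →
      MvPolynomial.aeval c2 Q = 0 := by
    intro Q hQ
    have h2 := hcQ3 _ (hQ2 Q hQ)
    rw [MvPolynomial.aeval_rename] at h2
    exact h2
  have hc2EQ : ∀ Q : MvPolynomial (Fin (k + 1)) F, MvPolynomial.aeval y Q = 0 →
      MvPolynomial.aeval c2E Q = 0 := by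
    intro Q hQ
    have h2 := hcEQ _ (hQ2 Q hQ)
    rw [MvPolynomial.aeval_rename] at h2
    exact h2
  have hc2E0 : ∀ i, (c2E i).coeff 0 = y i := fun i => (hcE0 _).trans (hy2 i)
  have hcoe : ∀ i k, (c2E i).coeff k = ((c2 i).coeff k : E) := by
    intro i k
    simp only [c2E, c2, cE]
    rw [Polynomial.coeff_map]
    rfl
  have hnc : ∃ i k, k ≠ 0 ∧ (c2 i).coeff k ≠ 0 := by
    by_contra hno
    push Not at hno
    have h1 : ∀ i : Fin (k + 1), cE (Fin.castSucc i) = Polynomial.C (y i) := by
      intro i
      ext k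
      rw [Polynomial.coeff_C]
      split_ifs with h
      · rw [h]
        exact hc2E0 i
      · have h3 := hcoe i k
        rw [hno i k h] at h3
        exact h3
    have h3 := const_snoc y (lc b g) hg cE hcEQ h1
    apply hck
    have h4 : ∀ i : Fin (k + 1 + 1), (cE i).coeff k₁ = 0 := by
      intro i
      refine Fin.lastCases ?_ (fun i => ?_) i
      · exact h3 k₁ hk₁
      · rw [h1, Polynomial.coeff_C, if_neg hk₁]
    have h5 := h4 i₁
    simp only [cE] at h5
    rw [Polynomial.coeff_map] at h5
    exact (map_eq_zero_iff _ (algebraMap M E).injective).mp h5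
  -- the lowest exponent
  have hne : (sup c2).Nonempty := by
    obtain ⟨i, k, hk, hik⟩ := hnc
    exact ⟨k, (mem_sup _ _).mpr ⟨hk, i, hik⟩⟩
  obtain ⟨j, hjS, hjmin⟩ := (sup c2).exists_min_image id hne
  simp only [id] at hjmin
  obtain ⟨hj0, hjne⟩ := (mem_sup _ _).mp hjS
  let ym : Fin (k + 1) → M := fun i => ⟨y i, hym2 i⟩
  have hvE : ∀ (m : ℕ) (v : Fin m → M), LinearIndependent F (fun i => ((v i : M) : E)) →
      LinearIndependent F v := by
    intro m v hv
    have h1 : (fun i => ((v i : M) : E)) = (Algebra.linearMap M E).restrictScalars F ∘ v := rfl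
    rw [h1] at hv
    exact LinearIndependent.of_comp _ hv
  have hindM : LinearIndependent F (Fin.cons 1 ym : Fin (k + 1 + 1) → M) := by
    apply hvE
    convert hind using 1
    funext i
    refine Fin.cases ?_ (fun i => ?_) i
    · rfl
    · rfl
  have hyaM : ∀ Q : MvPolynomial (Fin (k + 1)) F, MvPolynomial.aeval ym Q = 0 →
      MvPolynomial.aeval y Q = 0 := by
    intro Q hQ
    have h1 := MvPolynomial.aeval_algebraMap_apply (B := E) ym Q
    rw [hQ, map_zero] at h1
    exact h1
  have hyaM' : ∀ Q : MvPolynomial (Fin (k + 1)) F, MvPolynomial.aeval y Q = 0 →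
      MvPolynomial.aeval ym Q = 0 := by
    intro Q hQ
    have h1 := MvPolynomial.aeval_algebraMap_apply (B := E) ym Q
    have h2 : (fun i => algebraMap M E (ym i)) = y := rfl
    have h3 : (⇑(algebraMap M E) ∘ ym) = y := rfl
    rw [h3, hQ] at h1
    exact (map_eq_zero_iff _ (algebraMap M E).injective).mp h1.symm
  obtain ⟨P, hP0, hPy⟩ := hrel
  obtain ⟨i₂, hi₂⟩ := hai
  have hi₂M : AlgebraicIndependent F (fun j => ym (i₂.succAbove j)) := by
    refine AlgebraicIndependent.of_comp (IsScalarTower.toAlgHom F M E) ?_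
    exact hi₂
  rcases hLOW F M k ym i₂ hi₂M ⟨P, hP0, hyaM' P hPy⟩ c2 (fun l => by
      simp only [c2, ym]
      rw [hc0]
      exact Subtype.ext (hy2 l)) (fun Q hQ => hc2Q Q (hyaM Q hQ)) j
    (Nat.pos_of_ne_zero hj0) (fun l q hk hkj => by
      by_contra h3
      have h4 := hjmin q ((mem_sup _ _).mpr ⟨by omega, l, h3⟩)
      omega) hjne with ⟨l₁, l₂, hlow⟩ | ⟨a, ha0, haQ⟩
  swap
  · -- a line
    apply ha0
    funext l
    have h8 := hNT (fun l => Polynomial.C (y l) + Polynomial.C (algebraMap F E (a l)) * Polynomial.X)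
      (fun l => by simp) (fun Q hQ => by
        have h6 := congrArg (Polynomial.mapRingHom (algebraMap M E)) (haQ Q (hyaM' Q hQ))
        rw [map_zero, MvPolynomial.aeval_def, MvPolynomial.eval₂_comp_left] at h6
        rw [MvPolynomial.aeval_def, ← h6]
        congr 1
        · ext x
          rw [RingHom.comp_apply, Polynomial.coe_mapRingHom, Polynomial.algebraMap_apply,
            Polynomial.algebraMap_apply, Polynomial.map_C]
          rfl
        · funext l
          rw [Function.comp_apply, Polynomial.coe_mapRingHom, Polynomial.map_add,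
            Polynomial.map_mul, Polynomial.map_C, Polynomial.map_C, Polynomial.map_X]
          rfl) (by
        refine le_trans ?_ (le_max_left _ _)
        have h9 : sup (fun l => Polynomial.C (y l) +
            Polynomial.C (algebraMap F E (a l)) * Polynomial.X) ⊆ {1} := by
          intro q hq
          obtain ⟨hq0, l, hl⟩ := (mem_sup _ _).mp hq
          rw [Finset.mem_singleton]
          by_contra hq1
          apply hl
          rw [Polynomial.coeff_add, Polynomial.coeff_C, if_neg hq0, Polynomial.coeff_C_mul,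
            Polynomial.coeff_X, if_neg (Ne.symm hq1), mul_zero, add_zero]
        have h10 := Finset.card_le_card h9
        rw [Finset.card_singleton] at h10
        omega) l 1 one_ne_zero
    rw [Polynomial.coeff_add, Polynomial.coeff_C, if_neg one_ne_zero, Polynomial.coeff_C_mul,
      Polynomial.coeff_X, if_pos rfl, mul_one, zero_add] at h8
    exact (map_eq_zero_iff _ (algebraMap F E).injective).mp h8
  -- the count
  let β : Fin N → HahnSeries ℚ M := fun j => r (b j)
  have hLm : ∀ g : Fin N → F, Lm β g = ((θ (lc b g : E) : Pui M) : HQ M) := hsum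
  have hf' : ∀ i : Fin (k + 1), f' (Fin.castSucc i) = f i := by
    intro i
    simp only [f']
    rw [Fin.snoc_castSucc]
  have hord2 : ∀ (i : Fin (k + 1)) (q : ℕ),
      ((-(q * μ) : ℚ) : WithTop ℚ) ≤ (Lm β fun j => D^[q] (f i j)).orderTop ∧
      (Lm β fun j => D^[q] (f i j)).coeff (-(q * μ)) =
        (-1) ^ q * ((q.factorial : M) * (c2 i).coeff q) := by
    intro i q
    have h1 := hord (Fin.castSucc i) q
    rw [hf'] at h1
    exact h1
  have hfacM : ∀ q : ℕ, (-1) ^ q * (q.factorial : M) ≠ 0 := by
    intro q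
    apply mul_ne_zero
    · exact pow_ne_zero _ (neg_ne_zero.mpr one_ne_zero)
    · exact_mod_cast q.factorial_ne_zero
  have hj0ne : (c2 l₁).coeff j ≠ 0 := hlow.ne_zero 0
  let sel : ℕ → Fin (k + 1) := fun q => if q = j then l₁ else
    if h : ∃ i, (c2 i).coeff q ≠ 0 then h.choose else 0
  have hselj : sel j = l₁ := if_pos rfl
  have hsel : ∀ q ∈ sup c2, (c2 (sel q)).coeff q ≠ 0 := by
    intro q hk
    obtain ⟨-, hi⟩ := (mem_sup _ _).mp hk
    by_cases h : q = j
    · rw [h, hselj]
      exact hj0ne
    · have h3 : sel q = hi.choose := by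
        simp only [sel]
        rw [if_neg h, dif_pos hi]
      rw [h3]
      exact hi.choose_spec
  have hcount := countk β (Fin.cons e f : Fin (k + 1 + 1) → Fin N → F)
    (Fin.cons 1 ym : Fin (k + 1 + 1) → M) (by
      intro i
      rw [hLm]
      refine Fin.cases ?_ (fun i => ?_) i
      · rw [Fin.cons_zero, Fin.cons_zero, he, map_one, map_one]
        rfl
      · rw [Fin.cons_succ, Fin.cons_succ, ← hθC]
        congr 2
        exact hyi i) hindM (sup c2) (fun h => ((mem_sup _ _).mp h).1 rfl) μ hμ
    (fun q => fun j => D^[q] (f (sel q) j)) (fun q _ => (hord2 (sel q) q).1) (fun q hk => by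
      rw [(hord2 (sel q) q).2, ← mul_assoc]
      exact mul_ne_zero (hfacM q) (hsel q hk)) j hjS (fun i => D^[j] (f l₂ i)) (hord2 l₂ j).1 (by
      simp only [hselj]
      rw [(hord2 l₁ j).2, (hord2 l₂ j).2, LinearIndependent.pair_iff]
      intro s t hst
      apply LinearIndependent.pair_iff.mp hlow s t
      apply mul_left_cancel₀ (hfacM j)
      rw [mul_zero, ← hst]
      rw [Algebra.smul_def, Algebra.smul_def, Algebra.smul_def, Algebra.smul_def]
      ring)
  have hsupE : sup c2E = sup c2 := by
    ext q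
    rw [mem_sup, mem_sup]
    refine and_congr_right fun _ => exists_congr fun i => ?_
    rw [hcoe, Ne, Ne, ZeroMemClass.coe_eq_zero]
  obtain ⟨i, q, hk, hik⟩ := hnc
  apply hik
  have h7 := hNT c2E hc2E0 hc2EQ (by rw [hsupE]; omega) i q hk
  rw [hcoe] at h7
  exact_mod_cast h7

end

end Pool.Agent.Zk18.Th
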