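import Pool.Agent.Zk18.Th.Sp
import Pool.Agent.Zk18.Th.Stk

/-!
# Points without thin curves: the number of the fields (any transcendence degree)
-/

set_option autoImplicit false
set_option linter.unusedSectionVars false

attribute [-instance] HahnSeries.powerSeriesAlgebra

namespace Pool.Agent.Zk18.Thk

open HahnSeries TensorProduct Pool.Agent.Zk18 Pool.Agent.Zk18.Md Pool.Agent.Zk18.Fd Pool.Agent.Zk18.Th

section

variable {K F L E : Type} [Field K] [Field F] [Field L] [Field E] [CharZero K]
  [Algebra K F] [Algebra K L] [Algebra F E] [Algebra L E] [Algebra K E]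
  [IsScalarTower K F E] [IsScalarTower K L E]

/-- a good specialisation -/
structure GoodT {A : Type} [CommRing A] [Algebra K A] {k N : ℕ} (b : Fin N → L)
    (a : Fin (k + 1) → Fin N → A) (P : MvPolynomial (Fin (k + 1)) A) (s : A →ₐ[K] K) : Prop where
  rank : ((k : ℕ) : ℕ∞) ≤
    (AlgebraicIndependent.matroid K L).eRk (Set.range (Fd.pt b fun i j => s (a i j)))
  ai : ∃ i : Fin (k + 1), AlgebraicIndependent K
    (fun j => Fd.pt b (fun i j => s (a i j)) (i.succAbove j))
  ind : LinearIndependent K (Fin.cons 1 (Fd.pt b (fun i j => s (a i j))) : Fin (k + 1 + 1) → L)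
  nc : ∀ (κ : Type) (_ : Field κ) (_ : Algebra L κ), Countable κ →
      NCt (max 5 (N + 1 - k)) (((algebraMap L κ).comp (algebraMap K L)).comp (s : A →+* K)) P
        (fun i => algebraMap L κ (Fd.pt b (fun i j => s (a i j)) i))

/-- **Two good points of an irreducible family generate the same field.** -/
theorem same_field (hLOW : S_LOWK) (hGLI : S_GLI) (hGAI : S_GAI) [IsAlgClosed K] [Countable E]
    [IsAlgClosed E]
    (hdis : Function.Injective (pm K F L E))
    {A : Type} [CommRing A] [Algebra K A] (ι : A →ₐ[K] F) (hι : Function.Injective ι)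
    {k N : ℕ} (b : Fin N → L)
    (e : Fin N → K) (he : ∑ j, algebraMap K L (e j) * b j = 1) (a : Fin (k + 1) → Fin N → A)
    (P : MvPolynomial (Fin (k + 1)) A) (hP0 : P ≠ 0)
    (hP : MvPolynomial.aeval (fun i => (lc b (fun j => ι (a i j)) : E))
      (MvPolynomial.map (ι : A →+* F) P) = 0)
    (s s' : A →ₐ[K] K) (hs : GoodT b a P s) (hs' : GoodT b a P s') :
    (AlgebraicIndependent.matroid K L).closure (Set.range (Fd.pt b fun i j => s (a i j))) =
      (AlgebraicIndependent.matroid K L).closure (Set.range (Fd.pt b fun i j => s' (a i j))) := by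
  classical
  have hcE : CharZero E := charZero_of_injective_algebraMap (algebraMap K E).injective
  have hcF : CharZero F := charZero_of_injective_algebraMap (algebraMap K F).injective
  have hNT : NT F (max 5 (N + 1 - k)) (fun i => (lc b (fun j => ι (a i j)) : E)) :=
    NT_generic hdis ι hι s b a P hP (fun κ hκ hL hcard => by
      have h1 : Countable κ := by
        rw [← Cardinal.mk_le_aleph0_iff]
        exact hcard.trans (Cardinal.mk_le_aleph0_iff.mpr inferInstance)
      exact hs.nc κ hκ hL h1)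
  let τ : Fin (k + 1) → A ⊗[K] L := fun i => ∑ j, a i j ⊗ₜ b j
  have hτ1 : ∀ i, sg L s (τ i) = Fd.pt b (fun i j => s (a i j)) i := by
    intro i
    simp only [τ]
    rw [map_sum, Fd.pt]
    exact Finset.sum_congr rfl fun j _ => sg_tmul s _ _
  have hτ2 : ∀ i, pm K F L E (Algebra.TensorProduct.map ι (AlgHom.id K L) (τ i)) =
      lc b (fun j => ι (a i j)) := by
    intro i
    simp only [τ]
    rw [map_sum, map_sum, lc]
    refine Finset.sum_congr rfl fun j _ => ?_
    rw [Algebra.TensorProduct.map_tmul, pm_tmul]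
    rfl
  have hind : LinearIndependent F (Fin.cons 1 (fun i => (lc b (fun j => ι (a i j)) : E)) :
      Fin (k + 1 + 1) → E) := by
    have h1 := hGLI K F L E A hdis ι hι s (Fin (k + 1 + 1)) (Fin.cons 1 τ) (by
      convert hs.ind using 1
      funext i
      refine Fin.cases ?_ (fun i => ?_) i
      · rw [Fin.cons_zero, Fin.cons_zero, map_one]
      · rw [Fin.cons_succ, Fin.cons_succ, hτ1])
    convert h1 using 1
    funext i
    refine Fin.cases ?_ (fun i => ?_) i
    · rw [Fin.cons_zero, Fin.cons_zero, map_one, map_one]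
    · rw [Fin.cons_succ, Fin.cons_succ, hτ2]
  have hai : ∃ i : Fin (k + 1), AlgebraicIndependent F
      (fun j => (lc b (fun l => ι (a (i.succAbove j) l)) : E)) := by
    obtain ⟨i, hi⟩ := hs.ai
    refine ⟨i, ?_⟩
    have h1 := hGAI K F L E A hdis ι hι s k (fun j => τ (i.succAbove j)) (by
      convert hi using 1
      funext j
      rw [hτ1])
    convert h1 using 1
    funext j
    rw [hτ2]
  have he' : (lc b (fun j => algebraMap K F (e j)) : E) = 1 := by
    rw [← map_one (algebraMap L E), ← he, map_sum, lc]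
    apply Finset.sum_congr rfl
    intro j _
    rw [map_mul, ← IsScalarTower.algebraMap_apply K L E,
      ← IsScalarTower.algebraMap_apply K F E]
  have hPF0 : MvPolynomial.map (ι : A →+* F) P ≠ 0 := by
    intro h0
    apply hP0
    apply MvPolynomial.map_injective (ι : A →+* F) hι
    rw [h0, map_zero]
  let G := KK F (Set.range fun i => (lc b (fun j => ι (a i j)) : E))
  let S : Submodule F (Fin N → F) :=
    { carrier := {g | (lc b g : E) ∈ G}
      add_mem' := by
        intro x y hx hy
        rw [Set.mem_ofPred_eq] at hx hy ⊢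
        have h1 : (lc b (x + y) : E) = lc b x + lc b y := by
          simp only [lc, Pi.add_apply, map_add, add_mul, Finset.sum_add_distrib]
        rw [h1]
        exact G.add_mem hx hy
      zero_mem' := by
        rw [Set.mem_ofPred_eq]
        have h1 : (lc b (0 : Fin N → F) : E) = 0 := by
          simp [lc]
        rw [h1]
        exact G.zero_mem
      smul_mem' := by
        intro c x hx
        rw [Set.mem_ofPred_eq] at hx ⊢
        have h1 : (lc b (c • x) : E) = algebraMap F E c * lc b x := by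
          simp only [lc, Pi.smul_apply, smul_eq_mul, map_mul, Finset.mul_sum, mul_assoc]
        rw [h1]
        exact G.mul_mem (G.algebraMap_mem c) hx }
  have hSmem : ∀ g, g ∈ S ↔ (lc b g : E) ∈ G := fun g => Iff.rfl
  have hspan := descent (K := K) S (fun D hD hDK g hg => by
    rw [hSmem] at hg ⊢
    exact stable_k hLOW hdis b (fun i j => ι (a i j)) (fun j => algebraMap K F (e j)) he' hind
      ⟨_, hPF0, hP⟩ hai hNT D hD hDK g hg)
  have hmem : ∀ (s : A →ₐ[K] K), ∀ x ∈ Set.range (Fd.pt b fun i j => s (a i j)),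
      algebraMap L E x ∈ G := by
    rintro s _ ⟨i, rfl⟩
    have h1 := spec_mem S hspan ι hι s (a i) (by
      rw [hSmem]
      exact mem_KK_of_mem ⟨i, rfl⟩)
    rw [hSmem] at h1
    convert h1 using 1
    rw [Fd.pt, lc, map_sum]
    apply Finset.sum_congr rfl
    intro j _
    rw [map_mul, ← IsScalarTower.algebraMap_apply K L E, ← IsScalarTower.algebraMap_apply K F E]
  have hrk := rank_le (F := F) (fun i => (lc b (fun j => ι (a i j)) : E))
    (MvPolynomial.map (ι : A →+* F) P) hPF0 hP
  exact closure_eq hdis hrk _ _ (hmem s) (hmem s') hs.rank hs'.rank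

end

section

variable {K L : Type} [Field K] [Field L] [CharZero K] [Algebra K L]

/-- a good point of the parameter space -/
structure GoodPtT {k N D : ℕ} (b : Fin N → L) (z : Par k N D → K) : Prop where
  ne : UP (cc z) ≠ 0
  eq : MvPolynomial.aeval (Fd.pt b (xx z)) (UP (cc z)) = 0
  rank : ((k : ℕ) : ℕ∞) ≤ (AlgebraicIndependent.matroid K L).eRk (Set.range (Fd.pt b (xx z)))
  ai : ∃ i : Fin (k + 1), AlgebraicIndependent K (fun j => Fd.pt b (xx z) (i.succAbove j))
  ind : LinearIndependent K (Fin.cons 1 (Fd.pt b (xx z)) : Fin (k + 1 + 1) → L)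
  nc : ∀ (κ : Type) (_ : Field κ) (_ : Algebra L κ), Countable κ →
      NCt (max 5 (N + 1 - k)) ((algebraMap L κ).comp (algebraMap K L)) (UP (cc z))
        (fun i => algebraMap L κ (Fd.pt b (xx z) i))

set_option maxHeartbeats 8000000 in
/-- two good points of a common prime ideal -/
theorem same_of_prime (hLOW : S_LOWK) (hGLI : S_GLI) (hGAI : S_GAI) [IsAlgClosed K] [Countable K] [Countable L] {k N D : ℕ}
    (b : Fin N → L)
    (e : Fin N → K) (he : ∑ j, algebraMap K L (e j) * b j = 1)
    (𝔭 : Ideal (MvPolynomial (Par k N D) K)) (h𝔭 : 𝔭.IsPrime) (hI : ∀ f ∈ Eqs K D b, f ∈ 𝔭)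
    (z z' : Par k N D → K) (hz : GoodPtT b z) (hz' : GoodPtT b z')
    (hz𝔭 : ∀ f ∈ 𝔭, MvPolynomial.aeval z f = 0) (hz'𝔭 : ∀ f ∈ 𝔭, MvPolynomial.aeval z' f = 0) :
    (AlgebraicIndependent.matroid K L).closure (Set.range (Fd.pt b (xx z))) =
      (AlgebraicIndependent.matroid K L).closure (Set.range (Fd.pt b (xx z'))) := by
  classical
  let R := MvPolynomial (Par k N D) K
  let A := R ⧸ 𝔭
  let F₀ := FractionRing A
  have hcR : Countable R := by
    rw [← Cardinal.mk_le_aleph0_iff]
    refine MvPolynomial.cardinalMk_le_max.trans (max_le (max_le ?_ ?_) le_rfl)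
    · exact Cardinal.mk_le_aleph0_iff.mpr inferInstance
    · exact Cardinal.mk_le_aleph0_iff.mpr inferInstance
  have hcA : Countable A := (Ideal.Quotient.mk_surjective (I := 𝔭)).countable
  have hcF₀ : Countable F₀ := by
    have hsurj : Function.Surjective
        (fun p : A × A => algebraMap A F₀ p.1 / algebraMap A F₀ p.2) := by
      intro x
      obtain ⟨p, q, -, hpq⟩ := IsFractionRing.div_surjective (A := A) x
      exact ⟨(p, q), hpq⟩
    exact hsurj.countable
  let F := AlgebraicClosure F₀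
  have hcF : Countable F := Pool.Agent.Zk18.Th.countable_closure F₀
  obtain ⟨E, hE₁, hE₂, hE₃, hE₄, hE₅, hE₆, hEc, hEa, hdis⟩ := exists_compositum (K := K) F L
  let ι₀ : A →ₐ[K] F₀ := IsScalarTower.toAlgHom K A F₀
  let ι : A →ₐ[K] F := (IsScalarTower.toAlgHom K F₀ F).comp ι₀
  have hι : Function.Injective ι := by
    intro a a' h
    have h1 : algebraMap F₀ F (ι₀ a) = algebraMap F₀ F (ι₀ a') := h
    exact IsFractionRing.injective A F₀ ((algebraMap F₀ F).injective h1)
  let mk : R →ₐ[K] A := Ideal.Quotient.mkₐ K 𝔭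
  let a : Fin (k + 1) → Fin N → A := fun i j => mk (MvPolynomial.X (Sum.inl (i, j)))
  let ca : (Fin (k + 1) → Fin (D + 1)) → A := fun d => mk (MvPolynomial.X (Sum.inr d))
  let sp : ∀ z : Par k N D → K, (∀ f ∈ 𝔭, MvPolynomial.aeval z f = 0) → (A →ₐ[K] K) :=
    fun z hz => Ideal.Quotient.liftₐ 𝔭 (MvPolynomial.aeval z) hz
  have hsp : ∀ z hz f, sp z hz (mk f) = MvPolynomial.aeval z f := fun z hz f => rfl
  have hspa : ∀ z hz, (fun i j => sp z hz (a i j)) = xx z := by
    intro z hz
    funext i j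
    rw [hsp, MvPolynomial.aeval_X]
    rfl
  have hspc : ∀ z hz d, sp z hz (ca d) = cc z d := by
    intro z hz d
    rw [hsp, MvPolynomial.aeval_X]
    rfl
  -- the equation
  let χ : R ⊗[K] L →ₐ[K] E := (pm K F L E).comp
    (Algebra.TensorProduct.map (ι.comp mk) (AlgHom.id K L))
  have hχ : ∀ (r : R) (l : L), χ (r ⊗ₜ l) = algebraMap F E (ι (mk r)) * algebraMap L E l := by
    intro r l
    change pm K F L E (Algebra.TensorProduct.map (ι.comp mk) (AlgHom.id K L) (r ⊗ₜ l)) = _
    rw [Algebra.TensorProduct.map_tmul, pm_tmul]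
    rfl
  have hχU : χ (UU D b) = 0 := by
    rw [UU_eq b (Module.Basis.ofVectorSpace K L), map_sum]
    apply Finset.sum_eq_zero
    intro e _
    have h1 : mk (((Module.Basis.ofVectorSpace K L).baseChange R).repr (UU D b) e) = 0 :=
      Ideal.Quotient.eq_zero_iff_mem.mpr (hI _ ⟨e, rfl⟩)
    rw [hχ, h1, map_zero, map_zero, zero_mul]
  have hP : MvPolynomial.aeval (fun i => (lc b (fun j => ι (a i j)) : E))
      (MvPolynomial.map (ι : A →+* F) (UP ca)) = 0 := by
    rw [map_UP, MvPolynomial.aeval_def, eval₂_UP, ← hχU, UU, map_sum]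
    apply Finset.sum_congr rfl
    intro d _
    rw [map_mul, map_prod, hχ, map_one, mul_one]
    congr 1
    apply Finset.prod_congr rfl
    intro i _
    rw [map_pow, YU, map_sum]
    congr 1
  have hP0 : UP ca ≠ 0 := by
    intro h0
    have h1 := congrArg (MvPolynomial.map ((sp z hz𝔭 : A →ₐ[K] K) : A →+* K)) h0
    rw [map_UP, map_zero] at h1
    apply hz.ne
    rw [← h1]
    congr 1
    funext d
    exact (hspc z hz𝔭 d).symm
  have hgood : ∀ (z : Par k N D → K) (hz : GoodPtT b z)
      (h : ∀ f ∈ 𝔭, MvPolynomial.aeval z f = 0), GoodT b a (UP ca) (sp z h) := by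
    intro z hz h
    constructor
    · rw [hspa z h]
      exact hz.rank
    · obtain ⟨i, hi⟩ := hz.ai
      refine ⟨i, ?_⟩
      rw [hspa z h]
      exact hi
    · rw [hspa z h]
      exact hz.ind
    · intro κ hκ hL hc
      rw [hspa z h]
      have h1 := hz.nc κ hκ hL hc
      intro c hc0 hcP
      apply h1 c hc0
      rw [← hcP, eval₂_UP, eval₂_UP]
      apply Finset.sum_congr rfl
      intro d _
      congr 1
      have h2 := hspc z h d
      simp only [RingHom.comp_apply]
      rw [← h2]
      rfl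
  have hfin := same_field hLOW hGLI hGAI hdis ι hι b e he a (UP ca) hP0 hP (sp z hz𝔭) (sp z' hz'𝔭)
    (hgood z hz hz𝔭) (hgood z' hz' hz'𝔭)
  rw [hspa, hspa] at hfin
  exact hfin

/-- **The number of the fields.** -/
theorem card_fields (hLOW : S_LOWK) (hGLI : S_GLI) (hGAI : S_GAI) [IsAlgClosed K] [Countable K] [Countable L] {k N D : ℕ}
    (b : Fin N → L)
    (e : Fin N → K) (he : ∑ j, algebraMap K L (e j) * b j = 1)
    (T : Finset (Set L)) (hT : ∀ s ∈ T, ∃ z : Par k N D → K, GoodPtT b z ∧
      s = (AlgebraicIndependent.matroid K L).closure (Set.range (Fd.pt b (xx z)))) :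
    T.card ≤ (2 * ((k + 1) * D + 1)) ^ ((k + 1) * N + (D + 1) ^ (k + 1)) := by
  classical
  have h1 : ∀ s : Set L, ∃ (z : Par k N D → K) (𝔭 : Ideal (MvPolynomial (Par k N D) K)), s ∈ T →
      (GoodPtT b z ∧ s = (AlgebraicIndependent.matroid K L).closure (Set.range (Fd.pt b (xx z)))) ∧
      𝔭 ∈ (Ideal.span (Eqs K D b)).minimalPrimes ∧ ∀ f ∈ 𝔭, MvPolynomial.aeval z f = 0 := by
    intro s
    by_cases hs : s ∈ T
    · obtain ⟨z, hz, hzs⟩ := hT s hs
      have hprime : (RingHom.ker (MvPolynomial.aeval z :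
          MvPolynomial (Par k N D) K →ₐ[K] K)).IsPrime := RingHom.ker_isPrime _
      have hle : Ideal.span (Eqs K D b) ≤ RingHom.ker (MvPolynomial.aeval z :
          MvPolynomial (Par k N D) K →ₐ[K] K) := by
        rw [Ideal.span_le]
        intro f hf
        exact eval_Eqs b z hz.eq f hf
      obtain ⟨𝔭, h𝔭, hle'⟩ := Ideal.exists_minimalPrimes_le hle
      exact ⟨z, 𝔭, fun _ => ⟨⟨hz, hzs⟩, h𝔭, fun f hf => hle' hf⟩⟩
    · exact ⟨0, ⊥, fun h => absurd h hs⟩
  choose z 𝔭 hz using h1
  have hinj : Set.InjOn 𝔭 (T : Set (Set L)) := by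
    intro s hs s' hs' heq
    obtain ⟨⟨g1, e1⟩, p1, v1⟩ := hz s hs
    obtain ⟨⟨g2, e2⟩, p2, v2⟩ := hz s' hs'
    rw [e1, e2]
    exact same_of_prime hLOW hGLI hGAI b e he (𝔭 s) p1.1.1 (fun f hf => p1.1.2 (Ideal.subset_span hf))
      _ _ g1 g2 v1 (heq ▸ v2)
  rw [← Finset.card_image_of_injOn hinj]
  have h2 := Cmp.count_minimalPrimes (K := K) (ι := Par k N D) ((k + 1) * D + 1) (by omega)
    (Eqs K D b) (fun f hf => Eqs_degree b f hf) (T.image 𝔭) (by
      intro q hq
      rw [Finset.mem_image] at hq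
      obtain ⟨s, hs, rfl⟩ := hq
      exact (hz s hs).2.1)
  refine h2.trans (le_of_eq ?_)
  congr 1
  simp only [Fintype.card_sum, Fintype.card_prod, Fintype.card_fin, Fintype.card_fun]

end

end Pool.Agent.Zk18.Thk
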