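import Pool.Agent.Zk18.Th.St
import Pool.Agent.Zk18.Fd10

/-!
# Thin polynomial curves: from a special point to the generic point
-/

set_option autoImplicit false
set_option linter.unusedSectionVars false

attribute [-instance] HahnSeries.powerSeriesAlgebra

namespace Pool.Agent.Zk18.Th

open TensorProduct Pool.Agent.Zk18 Pool.Agent.Zk18.Md Pool.Agent.Zk18.Fd

theorem countable_closure (F : Type) [Field F] [Countable F] : Countable (AlgebraicClosure F) := by
  rw [← Cardinal.mk_le_aleph0_iff]
  refine (Algebra.IsAlgebraic.cardinalMk_le_max F (AlgebraicClosure F)).trans (max_le ?_ le_rfl)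
  exact Cardinal.mk_le_aleph0_iff.mpr inferInstance

/-- Over a point `y` of the hypersurface `P = 0` there is no nonconstant polynomial curve with few
exponents. -/
def NCt {R κ : Type} [CommRing R] [Field κ] (N : ℕ) (φ : R →+* κ) {m : ℕ}
    (P : MvPolynomial (Fin m) R) (y : Fin m → κ) : Prop :=
  ∀ c : Fin m → Polynomial κ, (∀ i, (c i).coeff 0 = y i) →
    MvPolynomial.eval₂ (Polynomial.C.comp φ) c P = 0 → (sup c).card + 4 ≤ N →
    ∀ i k, k ≠ 0 → (c i).coeff k = 0

theorem NCt.of_embedding {R κ κ' : Type} [CommRing R] [Field κ] [Field κ'] {N : ℕ} (φ : R →+* κ)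
    (j : κ →+* κ') {m : ℕ} (P : MvPolynomial (Fin m) R) (y : Fin m → κ)
    (h : NCt N (j.comp φ) P (fun i => j (y i))) : NCt N φ P y := by
  intro c hc hP hcard i k hk
  have h1 := h (fun i => (c i).map j) (fun i => by rw [Polynomial.coeff_map, hc]) (by
    have h2 := congrArg (Polynomial.mapRingHom j) hP
    rw [map_zero, MvPolynomial.eval₂_comp_left] at h2
    rw [← h2]
    congr 1
    ext a
    simp) (by
    have h3 : sup (fun i => (c i).map j) = sup c := by
      ext k
      rw [mem_sup, mem_sup]
      refine and_congr_right fun _ => exists_congr fun i => ?_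
      rw [Polynomial.coeff_map, Ne, Ne, map_eq_zero_iff _ j.injective]
    rw [h3]
    exact hcard) i k hk
  rw [Polynomial.coeff_map] at h1
  exact (map_eq_zero_iff _ j.injective).mp h1

section

variable {K F L E : Type} [Field K] [Field F] [Field L] [Field E] [CharZero K]
  [Algebra K F] [Algebra K L] [Algebra F E] [Algebra L E] [Algebra K E]
  [IsScalarTower K F E] [IsScalarTower K L E]

/-- **From special to generic.** -/
theorem NT_generic [IsAlgClosed E] (hdis : Function.Injective (pm K F L E))
    {A : Type} [CommRing A] [Algebra K A] (ι : A →ₐ[K] F) (hι : Function.Injective ι)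
    (s : A →ₐ[K] K) {m N N₀ : ℕ} (b : Fin N → L) (a : Fin m → Fin N → A)
    (P : MvPolynomial (Fin m) A)
    (hP : MvPolynomial.aeval (fun i => (lc b (fun j => ι (a i j)) : E))
      (MvPolynomial.map (ι : A →+* F) P) = 0)
    (hsp : ∀ (κ : Type) (_ : Field κ) (_ : Algebra L κ), Cardinal.mk κ ≤ Cardinal.mk E →
      NCt N₀ (((algebraMap L κ).comp (algebraMap K L)).comp (s : A →+* K)) P
        (fun i => algebraMap L κ (∑ j, algebraMap K L (s (a i j)) * b j))) :
    NT F N₀ (fun i => (lc b (fun j => ι (a i j)) : E)) := by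
  classical
  intro c hc0 hcQ hcard₀ i₁ k₁ hk₁
  by_contra hne
  -- the ring
  let β : A ⊗[K] L →+* E := ((pm K F L E).comp (Algebra.TensorProduct.map ι (AlgHom.id K L)) :
    A ⊗[K] L →ₐ[K] E)
  have hβt : ∀ (x : A) (l : L), β (x ⊗ₜ l) = algebraMap F E (ι x) * algebraMap L E l := by
    intro x l
    change pm K F L E (Algebra.TensorProduct.map ι (AlgHom.id K L) (x ⊗ₜ l)) = _
    rw [Algebra.TensorProduct.map_tmul, pm_tmul]
    rfl
  have hβ : Function.Injective β := by
    have h1 : Function.Injective (LinearMap.rTensor L (ι.toLinearMap)) :=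
      Module.Flat.rTensor_preserves_injective_linearMap _ hι
    intro x y hxy
    have h2 : ∀ z : A ⊗[K] L, Algebra.TensorProduct.map ι (AlgHom.id K L) z =
        LinearMap.rTensor L (ι.toLinearMap) z := by
      intro z
      rfl
    have h3 := hdis hxy
    change Algebra.TensorProduct.map ι (AlgHom.id K L) x =
      Algebra.TensorProduct.map ι (AlgHom.id K L) y at h3
    rw [h2, h2] at h3
    exact h1 h3
  have hdom : IsDomain (A ⊗[K] L) := hβ.isDomain
  let σ : A ⊗[K] L →+* L := (sg L s : A ⊗[K] L →ₐ[K] L)
  have hσt : ∀ (x : A) (l : L), σ (x ⊗ₜ l) = algebraMap K L (s x) * l := fun x l => sg_tmul s x l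
  let 𝔮 : Ideal (A ⊗[K] L) := RingHom.ker σ
  have h𝔮 : 𝔮.IsPrime := RingHom.ker_isPrime σ
  have hunit : ∀ z : 𝔮.primeCompl, IsUnit (β z) := by
    intro z
    apply IsUnit.mk0
    intro h0
    apply z.2
    have h1 : (z : A ⊗[K] L) = 0 := hβ (h0.trans (map_zero β).symm)
    rw [h1]
    exact 𝔮.zero_mem
  let βl : Localization.AtPrime 𝔮 →+* E := IsLocalization.lift hunit
  have hβl : ∀ z, βl (algebraMap _ _ z) = β z := fun z => IsLocalization.lift_eq hunit z
  obtain ⟨O, hO, hloc⟩ := IsLocalRing.exists_factor_valuationRing βl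
  let ρ : A ⊗[K] L →+* O := (βl.codRestrict O.toSubring hO).comp (algebraMap _ _)
  have hρ : ∀ z, ((ρ z : O) : E) = β z := by
    intro z
    exact hβl z
  have hρ𝔮 : ∀ z, z ∈ 𝔮 → IsLocalRing.residue O (ρ z) = 0 := by
    intro z hz
    rw [IsLocalRing.residue_eq_zero_iff, IsLocalRing.mem_maximalIdeal, mem_nonunits_iff]
    intro hu
    have h1 : IsUnit (algebraMap (A ⊗[K] L) (Localization.AtPrime 𝔮) z) :=
      hloc.map_nonunit _ hu
    have h2 := (IsLocalization.AtPrime.isUnit_to_map_iff (Localization.AtPrime 𝔮) 𝔮 z).mp h1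
    exact h2 hz
  let κ := IsLocalRing.ResidueField O
  let ρL : L →+* κ := (IsLocalRing.residue O).comp (ρ.comp
    (Algebra.TensorProduct.includeRight : L →ₐ[K] A ⊗[K] L).toRingHom)
  let _ : Algebra L κ := ρL.toAlgebra
  have hρσ : ∀ z, IsLocalRing.residue O (ρ z) = algebraMap L κ (σ z) := by
    intro z
    have h1 : z - 1 ⊗ₜ (σ z) ∈ 𝔮 := by
      change σ _ = 0
      rw [map_sub, hσt, map_one, map_one, one_mul, sub_self]
    have h2 := hρ𝔮 _ h1
    rw [map_sub, map_sub, sub_eq_zero] at h2
    rw [h2]
    rfl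
  -- rescaling
  have hroot : ∀ i k, ∃ r : E, k ≠ 0 → (c i).coeff k ≠ 0 → r ^ k * (c i).coeff k = 1 := by
    intro i k
    by_cases h : k ≠ 0 ∧ (c i).coeff k ≠ 0
    · obtain ⟨r, hr⟩ := IsAlgClosed.exists_pow_nat_eq ((c i).coeff k)⁻¹ (Nat.pos_of_ne_zero h.1)
      exact ⟨r, fun _ _ => by rw [hr, inv_mul_cancel₀ h.2]⟩
    · exact ⟨0, fun h1 h2 => absurd ⟨h1, h2⟩ h⟩
  choose r hr using hroot
  let T : Finset (Fin m × ℕ) := (Finset.univ ×ˢ Finset.range ((Finset.univ.sup fun i =>
    (c i).natDegree) + 1)).filter fun p => p.2 ≠ 0 ∧ (c p.1).coeff p.2 ≠ 0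
  have hT : ∀ i k, k ≠ 0 → (c i).coeff k ≠ 0 → (i, k) ∈ T := by
    intro i k hk hck
    simp only [T, Finset.mem_filter, Finset.mem_product, Finset.mem_univ, Finset.mem_range,
      true_and]
    refine ⟨Nat.lt_succ_of_le ((Polynomial.le_natDegree_of_ne_zero hck).trans ?_), hk, hck⟩
    exact Finset.le_sup (f := fun i => (c i).natDegree) (Finset.mem_univ i)
  obtain ⟨⟨i₀, k₀⟩, hmem, hmin⟩ := Finset.exists_min_image T (fun p => O.valuation (r p.1 p.2))
    ⟨_, hT i₁ k₁ hk₁ hne⟩
  have hk₀ : k₀ ≠ 0 := (Finset.mem_filter.mp hmem).2.1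
  have hck₀ : (c i₀).coeff k₀ ≠ 0 := (Finset.mem_filter.mp hmem).2.2
  let t := r i₀ k₀
  have hcO : ∀ i k, (c i).coeff k * t ^ k ∈ O := by
    intro i k
    by_cases hk : k = 0
    · subst hk
      rw [pow_zero, mul_one, hc0]
      have h1 : (lc b (fun j => ι (a i j)) : E) = β (∑ j, a i j ⊗ₜ b j) := by
        rw [map_sum, lc]
        exact Finset.sum_congr rfl fun j _ => (hβt _ _).symm
      change (lc b (fun j => ι (a i j)) : E) ∈ O
      rw [h1, ← hρ]
      exact (ρ _).2
    · by_cases hck : (c i).coeff k = 0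
      · rw [hck, zero_mul]
        exact O.zero_mem
      · rw [← O.valuation_le_one_iff]
        have h1 := hmin (i, k) (hT i k hk hck)
        have h2 : O.valuation t ^ k ≤ O.valuation (r i k) ^ k := pow_le_pow_left' h1 k
        have h3 := congrArg O.valuation (hr i k hk hck)
        rw [map_mul, map_pow, map_one, mul_comm] at h3
        rw [map_mul, map_pow, ← h3]
        exact mul_le_mul_right h2 _
  let cO : Fin m → Polynomial O := fun i =>
    ∑ k ∈ Finset.range ((c i).natDegree + 1), Polynomial.monomial k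
      (⟨(c i).coeff k * t ^ k, hcO i k⟩ : O)
  have hcOc : ∀ i k, (((cO i).coeff k : O) : E) = (c i).coeff k * t ^ k := by
    intro i k
    simp only [cO, Polynomial.finsetSum_coeff, Polynomial.coeff_monomial]
    rw [Finset.sum_ite_eq']
    split_ifs with h
    · rfl
    · rw [Finset.mem_range, not_lt] at h
      rw [Polynomial.coeff_eq_zero_of_natDegree_lt (by omega), zero_mul]
      rfl
  have hcO' : ∀ i, (cO i).map (algebraMap O E) = (c i).comp (Polynomial.C t * Polynomial.X) := by
    intro i
    ext k
    rw [Polynomial.coeff_map, Polynomial.comp_C_mul_X_coeff]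
    exact hcOc i k
  have hzero : MvPolynomial.eval₂ (Polynomial.C.comp (ρ.comp
      (Algebra.TensorProduct.includeLeft : A →ₐ[K] A ⊗[K] L).toRingHom)) cO P = 0 := by
    have hinj : Function.Injective (Polynomial.mapRingHom (algebraMap O E)) :=
      Polynomial.map_injective _ Subtype.val_injective
    apply hinj
    rw [map_zero, MvPolynomial.eval₂_comp_left]
    have h1 := hcQ _ hP
    have h2 := congrArg (Polynomial.compRingHom (Polynomial.C t * Polynomial.X)) h1
    rw [map_zero, MvPolynomial.aeval_def, MvPolynomial.eval₂_map, MvPolynomial.eval₂_comp_left]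
      at h2
    rw [← h2]
    congr 1
    · ext x
      simp only [RingHom.comp_apply, Polynomial.coe_mapRingHom, Polynomial.map_C,
        Polynomial.coe_compRingHom, Polynomial.algebraMap_apply, Polynomial.C_comp]
      congr 1
      have h3 := hρ (x ⊗ₜ 1)
      have h4 := hβt x (1 : L)
      rw [map_one, mul_one] at h4
      rw [h4] at h3
      exact congrArg Polynomial.C h3
    · funext i
      rw [Function.comp_apply, Function.comp_apply, Polynomial.coe_mapRingHom, hcO']
      rfl
  have hfin := hsp κ inferInstance inferInstance (by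
    have h1 : Cardinal.mk κ ≤ Cardinal.mk O := Cardinal.mk_le_of_surjective
      (IsLocalRing.residue_surjective)
    exact h1.trans (Cardinal.mk_le_of_injective (f := fun x : O => (x : E))
      Subtype.val_injective))
    (fun i => (cO i).map (IsLocalRing.residue O)) (fun i => by
      rw [Polynomial.coeff_map]
      have h1 : (cO i).coeff 0 = ρ (∑ j, a i j ⊗ₜ b j) := by
        apply Subtype.ext
        rw [hcOc, pow_zero, mul_one, hc0, hρ, map_sum]
        exact Finset.sum_congr rfl fun j _ => (hβt _ _).symm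
      rw [h1, hρσ, map_sum]
      congr 1) (by
      have h1 := congrArg (Polynomial.mapRingHom (IsLocalRing.residue O)) hzero
      rw [map_zero, MvPolynomial.eval₂_comp_left] at h1
      rw [← h1]
      congr 1
      ext x
      simp only [RingHom.comp_apply, Polynomial.coe_mapRingHom, Polynomial.map_C]
      congr 1
      have h2 := hρσ (x ⊗ₜ 1)
      rw [hσt, mul_one] at h2
      exact congrArg Polynomial.C h2.symm) (by
      refine le_trans (Nat.add_le_add_right (Finset.card_le_card ?_) 4) hcard₀
      intro k hk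
      rw [mem_sup] at hk ⊢
      obtain ⟨hk0, i, hi⟩ := hk
      refine ⟨hk0, i, fun h0 => hi ?_⟩
      rw [Polynomial.coeff_map]
      have h1 : (cO i).coeff k = 0 := by
        apply Subtype.ext
        rw [hcOc, h0, zero_mul]
        rfl
      rw [h1, map_zero]) i₀ k₀ hk₀
  rw [Polynomial.coeff_map] at hfin
  have h1 : (cO i₀).coeff k₀ = 1 := by
    apply Subtype.ext
    rw [hcOc, mul_comm]
    exact hr i₀ k₀ hk₀ hck₀
  rw [h1, map_one] at hfin
  exact one_ne_zero hfin


/-- combinations of linearly independent elements in the compositum -/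
theorem lc_injective (hdis : Function.Injective (pm K F L E)) {N : ℕ} (b : Fin N → L)
    (hb : LinearIndependent K b) (g : Fin N → F) (hg : (lc b g : E) = 0) : g = 0 := by
  classical
  obtain ⟨ψ, hψ⟩ := LinearMap.exists_leftInverse_of_injective (Fintype.linearCombination K b)
    (LinearMap.ker_eq_bot.mpr (linearIndependent_iff_injective_fintypeLinearCombination.mp hb))
  have hψb : ∀ i, ψ (b i) = Pi.single i 1 := by
    intro i
    have h1 := LinearMap.congr_fun hψ (Pi.single i 1)
    rw [LinearMap.comp_apply, Fintype.linearCombination_apply_single, one_smul] at h1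
    exact h1
  have h1 : ∑ j, g j ⊗ₜ[K] b j = 0 := by
    apply hdis
    rw [map_zero, map_sum, ← hg, lc]
    exact Finset.sum_congr rfl fun j _ => pm_tmul _ _
  funext i
  have h2 := congrArg (fun t => TensorProduct.rid K F
    (LinearMap.lTensor F (LinearMap.proj i ∘ₗ ψ : L →ₗ[K] K) t)) h1
  simp only [map_sum, LinearMap.lTensor_tmul, map_zero, LinearMap.comp_apply, hψb,
    LinearMap.proj_apply, TensorProduct.rid_tmul] at h2
  rw [Finset.sum_eq_single i] at h2
  · rw [Pi.single_eq_same, one_smul] at h2
    exact h2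
  · intro j _ hj
    rw [Pi.single_eq_of_ne (Ne.symm hj), zero_smul]
  · intro h
    exact absurd (Finset.mem_univ i) h

/-- linear independence at a special point implies linear independence at the generic point -/
theorem generic_ind (hdis : Function.Injective (pm K F L E))
    {A : Type} [CommRing A] [Algebra K A] (ι : A →ₐ[K] F) (hι : Function.Injective ι)
    (s : A →ₐ[K] K) {N : ℕ} (b : Fin N → L) (hb : LinearIndependent K b)
    (e : Fin N → K) (he : ∑ j, algebraMap K L (e j) * b j = 1) (a : Fin 2 → Fin N → A)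
    (hs : LinearIndependent K ![1, Fd.pt b (fun i j => s (a i j)) 0,
      Fd.pt b (fun i j => s (a i j)) 1]) :
    LinearIndependent F ![1, (lc b (fun j => ι (a 0 j)) : E), lc b (fun j => ι (a 1 j))] := by
  classical
  let w : Fin 3 → Fin N → A := ![fun j => algebraMap K A (e j), a 0, a 1]
  let w₀ : Fin 3 → Fin N → K := fun i j => s (w i j)
  have hw₀ : LinearIndependent K w₀ := by
    let Φ : (Fin N → K) →ₗ[K] L := Fintype.linearCombination K b
    have hΦ : ∀ g, Φ g = ∑ j, algebraMap K L (g j) * b j := by
      intro g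
      change Fintype.linearCombination K b g = _
      rw [Fintype.linearCombination_apply]
      exact Finset.sum_congr rfl fun j _ => Algebra.smul_def _ _
    apply LinearIndependent.of_comp Φ
    convert hs using 1
    funext i
    rw [Function.comp_apply, hΦ]
    fin_cases i
    · change ∑ j, algebraMap K L (s (algebraMap K A (e j))) * b j = 1
      rw [← he]
      exact Finset.sum_congr rfl fun j _ => by rw [s.commutes]; rfl
    · rfl
    · rfl
  obtain ⟨ψ, hψ⟩ := LinearMap.exists_leftInverse_of_injective (Fintype.linearCombination K w₀)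
    (LinearMap.ker_eq_bot.mpr (linearIndependent_iff_injective_fintypeLinearCombination.mp hw₀))
  let Q : Matrix (Fin N) (Fin 3) K := fun j i => ψ (Pi.single j 1) i
  have hψQ : ∀ g : Fin N → K, ∀ i, ψ g i = ∑ j, g j * Q j i := by
    intro g i
    have h1 : g = ∑ j, g j • (Pi.single j (1 : K) : Fin N → K) := by
      funext j'
      rw [Finset.sum_apply, Finset.sum_eq_single j']
      · rw [Pi.smul_apply, Pi.single_eq_same, smul_eq_mul, mul_one]
      · intro j _ hj
        rw [Pi.smul_apply, Pi.single_eq_of_ne (Ne.symm hj), smul_zero]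
      · intro h
        exact absurd (Finset.mem_univ _) h
    conv_lhs => rw [h1, map_sum, Finset.sum_apply]
    apply Finset.sum_congr rfl
    intro j _
    rw [map_smul, Pi.smul_apply, smul_eq_mul]
  have hinv : (Matrix.of w₀) * Q = 1 := by
    ext i i'
    rw [Matrix.mul_apply]
    have h1 := LinearMap.congr_fun hψ (Pi.single i 1)
    rw [LinearMap.comp_apply, Fintype.linearCombination_apply_single, one_smul] at h1
    have h2 := congrFun h1 i'
    rw [hψQ] at h2
    rw [Matrix.one_apply]
    refine Eq.trans h2 ?_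
    change (Pi.single i (1 : K) : Fin 3 → K) i' = _
    rw [Pi.single_apply]
    by_cases h : i = i'
    · rw [if_pos h, if_pos h.symm]
    · rw [if_neg h, if_neg (Ne.symm h)]
  let QA : Matrix (Fin N) (Fin 3) A := Q.map (algebraMap K A)
  have hdet : s ((Matrix.of w * QA).det) = 1 := by
    have h1 : s ((Matrix.of w * QA).det) = ((s : A →+* K).mapMatrix (Matrix.of w * QA)).det :=
      RingHom.map_det (s : A →+* K) _
    rw [h1]
    have h2 : (s : A →+* K).mapMatrix (Matrix.of w * QA) = Matrix.of w₀ * Q := by
      ext i i'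
      rw [RingHom.mapMatrix_apply, Matrix.map_apply, Matrix.mul_apply, Matrix.mul_apply, map_sum]
      apply Finset.sum_congr rfl
      intro j _
      rw [map_mul]
      congr 1
      change s (algebraMap K A (Q j i')) = Q j i'
      rw [s.commutes]
      rfl
    rw [h2, hinv, Matrix.det_one]
  have hdet0 : (Matrix.of w * QA).det ≠ 0 := by
    intro h0
    rw [h0, map_zero] at hdet
    exact zero_ne_one hdet
  have hdetF : ((ι : A →+* F).mapMatrix (Matrix.of w * QA)).det ≠ 0 := by
    have h1 : ι ((Matrix.of w * QA).det) = ((ι : A →+* F).mapMatrix (Matrix.of w * QA)).det :=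
      RingHom.map_det (ι : A →+* F) _
    rw [← h1]
    intro h0
    exact hdet0 (hι (h0.trans (map_zero ι).symm))
  rw [Fintype.linearIndependent_iff]
  intro g hg
  have hsum : (lc b (fun j => ∑ i, g i * ι (w i j)) : E) = 0 := by
    rw [← hg, Fin.sum_univ_three, Algebra.smul_def, Algebra.smul_def, Algebra.smul_def]
    change _ = algebraMap F E (g 0) * 1 + algebraMap F E (g 1) * lc b (fun j => ι (a 0 j)) +
      algebraMap F E (g 2) * lc b (fun j => ι (a 1 j))
    have h1 : (1 : E) = lc b (fun j => ι (algebraMap K A (e j))) := by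
      rw [← map_one (algebraMap L E), ← he, map_sum, lc]
      apply Finset.sum_congr rfl
      intro j _
      rw [map_mul, ι.commutes, ← IsScalarTower.algebraMap_apply K L E,
        ← IsScalarTower.algebraMap_apply K F E]
    conv_rhs => rw [h1]
    rw [lc, lc, lc, lc, Finset.mul_sum, Finset.mul_sum, Finset.mul_sum, ← Finset.sum_add_distrib,
      ← Finset.sum_add_distrib]
    apply Finset.sum_congr rfl
    intro j _
    rw [Fin.sum_univ_three, map_add, map_add, map_mul, map_mul, map_mul]
    change (algebraMap F E (g 0) * algebraMap F E (ι (algebraMap K A (e j))) +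
      algebraMap F E (g 1) * algebraMap F E (ι (a 0 j)) +
      algebraMap F E (g 2) * algebraMap F E (ι (a 1 j))) * algebraMap L E (b j) = _
    ring
  have h2 := lc_injective hdis b hb _ hsum
  have h3 : Matrix.vecMul g ((ι : A →+* F).mapMatrix (Matrix.of w * QA)) = 0 := by
    have h4 : (ι : A →+* F).mapMatrix (Matrix.of w * QA) =
        (Matrix.of fun i j => ι (w i j)) * (Matrix.of fun j i => ι (QA j i)) := by
      ext i i'
      rw [RingHom.mapMatrix_apply, Matrix.map_apply, Matrix.mul_apply, Matrix.mul_apply, map_sum]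
      exact Finset.sum_congr rfl fun j _ => map_mul _ _ _
    have h5 : Matrix.vecMul g (Matrix.of fun i j => ι (w i j)) = 0 := h2
    rw [h4, ← Matrix.vecMul_vecMul, h5, Matrix.zero_vecMul]
  intro i
  exact congrFun (Matrix.eq_zero_of_vecMul_eq_zero hdetF h3) i

end

end Pool.Agent.Zk18.Th
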