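import Pool.Agent.Zk18.Th.Ct
import Pool.Agent.Zk18.Th.Stm
import Pool.Agent.Zk18.Fd9

/-!
# Stability under derivations if there is no thin polynomial curve
-/

set_option autoImplicit false
set_option linter.unusedSectionVars false

attribute [-instance] HahnSeries.powerSeriesAlgebra

namespace Pool.Agent.Zk18.Th

open HahnSeries TensorProduct Pool.Agent.Zk18 Pool.Agent.Zk18.Md Pool.Agent.Helper165.P1
  Pool.Agent.Zk18.Fd

/-- the positive exponents of a curve -/
def sup {E : Type} [Field E] {m : ℕ} (c : Fin m → Polynomial E) : Finset ℕ :=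
  (Finset.univ.biUnion fun i => (c i).support).erase 0

theorem mem_sup {E : Type} [Field E] {m : ℕ} (c : Fin m → Polynomial E) (k : ℕ) :
    k ∈ sup c ↔ k ≠ 0 ∧ ∃ i, (c i).coeff k ≠ 0 := by
  simp [sup, Polynomial.mem_support_iff]

section

variable {F E : Type} [Field F] [Field E] [Algebra F E]

/-- a curve whose first coordinates are constant is constant -/
theorem const_snoc {m : ℕ} (y : Fin m → E) (z : E) (hz : z ∈ KK F (Set.range y))
    (c : Fin (m + 1) → Polynomial E)
    (hcQ : ∀ Q : MvPolynomial (Fin (m + 1)) F,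
      MvPolynomial.aeval (Fin.snoc y z : Fin (m + 1) → E) Q = 0 → MvPolynomial.aeval c Q = 0)
    (h2 : ∀ i, c (Fin.castSucc i) = Polynomial.C (y i)) (k : ℕ) (hk : k ≠ 0) :
    (c (Fin.last m)).coeff k = 0 := by
  classical
  obtain ⟨P, hP, hPz⟩ := exists_relation y z hz
  let p := P.map ((MvPolynomial.aeval y : MvPolynomial (Fin m) F →ₐ[F] E) :
      MvPolynomial (Fin m) F →+* E)
  let Q : MvPolynomial (Fin (m + 1)) F := P.eval₂
    ((MvPolynomial.rename Fin.castSucc : MvPolynomial (Fin m) F →ₐ[F] MvPolynomial (Fin (m + 1)) F) :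
      MvPolynomial (Fin m) F →+* MvPolynomial (Fin (m + 1)) F) (MvPolynomial.X (Fin.last m))
  have hQ1 : MvPolynomial.aeval (Fin.snoc y z : Fin (m + 1) → E) Q = 0 := by
    have h3 : MvPolynomial.aeval (Fin.snoc y z : Fin (m + 1) → E) Q = p.eval z := by
      change ((MvPolynomial.aeval (Fin.snoc y z : Fin (m + 1) → E) :
        MvPolynomial (Fin (m + 1)) F →ₐ[F] E) : MvPolynomial (Fin (m + 1)) F →+* E) _ = _
      rw [Polynomial.hom_eval₂, Polynomial.eval_map]
      congr 1
      · apply MvPolynomial.ringHom_ext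
        · intro r
          simp
        · intro i
          simp
      · simp
    rw [h3]
    exact hPz
  have h4 := hcQ Q hQ1
  have h5 : MvPolynomial.aeval c Q = p.comp (c (Fin.last m)) := by
    change ((MvPolynomial.aeval c :
      MvPolynomial (Fin (m + 1)) F →ₐ[F] Polynomial E) : MvPolynomial (Fin (m + 1)) F →+*
        Polynomial E) _ = _
    rw [Polynomial.hom_eval₂, Polynomial.comp, Polynomial.eval₂_map]
    congr 1
    · apply MvPolynomial.ringHom_ext
      · intro r
        simp [Polynomial.algebraMap_apply]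
      · intro i
        simp [h2]
    · simp
  rw [h5, Polynomial.comp_eq_zero_iff] at h4
  have h6 : c (Fin.last m) = Polynomial.C ((c (Fin.last m)).coeff 0) := by
    rcases h4 with h4 | h4
    · exact absurd h4 hP
    · exact h4.2
  rw [h6, Polynomial.coeff_C, if_neg hk]

end

section

variable {K F L E : Type} [Field K] [Field F] [Field L] [Field E] [CharZero K]
  [Algebra K F] [Algebra K L] [Algebra F E] [Algebra L E] [Algebra K E]
  [IsScalarTower K F E] [IsScalarTower K L E]

/-- no thin polynomial curve through `y` -/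
def NT (F : Type) {E : Type} [Field F] [Field E] [Algebra F E] (N : ℕ) {m : ℕ} (y : Fin m → E) :
    Prop :=
  ∀ c : Fin m → Polynomial E, (∀ i, (c i).coeff 0 = y i) →
    (∀ Q : MvPolynomial (Fin m) F, MvPolynomial.aeval y Q = 0 → MvPolynomial.aeval c Q = 0) →
    (sup c).card + 4 ≤ N → ∀ i k, k ≠ 0 → (c i).coeff k = 0

theorem stable_thin (hLOW : S_LOW) [Countable E] [IsAlgClosed E] [IsAlgClosed F]
    (hdis : Function.Injective (pm K F L E))
    {N : ℕ} (b : Fin N → L) (f : Fin 2 → Fin N → F) (e : Fin N → F) (he : (lc b e : E) = 1)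
    (hind : LinearIndependent F ![1, (lc b (f 0) : E), lc b (f 1)])
    (hrel : ∃ P : MvPolynomial (Fin 2) F, P ≠ 0 ∧
      MvPolynomial.aeval (fun i => (lc b (f i) : E)) P = 0)
    (hNT : NT F N (fun i => (lc b (f i) : E)))
    (D : F →+ F) (hD : ∀ a b, D (a * b) = D a * b + a * D b)
    (hDK : ∀ k : K, D (algebraMap K F k) = 0) (g : Fin N → F)
    (hg : (lc b g : E) ∈ KK F (Set.range fun i => (lc b (f i) : E))) :
    (lc b (fun j => D (g j)) : E) ∈ KK F (Set.range fun i => (lc b (f i) : E)) := by
  classical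
  by_contra hcon
  have hcE : CharZero E := charZero_of_injective_algebraMap (algebraMap K E).injective
  have hcF : CharZero F := charZero_of_injective_algebraMap (algebraMap K F).injective
  obtain ⟨y, hy⟩ : ∃ y : Fin 2 → E, y = fun i => (lc b (f i) : E) := ⟨_, rfl⟩
  rw [← hy] at hcon hg hrel hNT
  let f' : Fin 3 → Fin N → F := Fin.snoc f g
  let y' : Fin 3 → E := Fin.snoc y (lc b g)
  have hy' : ∀ i, y' i = lc b (f' i) := by
    intro i
    refine Fin.lastCases ?_ (fun i => ?_) i
    · simp only [y', f']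
      rw [Fin.snoc_last, Fin.snoc_last]
    · simp only [y', f']
      rw [Fin.snoc_castSucc, Fin.snoc_castSucc, hy]
  let M := KK F (Set.range y)
  have hcM : CharZero M := charZero_of_injective_algebraMap (algebraMap F M).injective
  have hMc : Countable M := inferInstance
  have hMa : IsAlgClosed M := isAlgClosed_KK _
  let _ : Algebra K M := ((algebraMap F M).comp (algebraMap K F)).toAlgebra
  have hKFM : IsScalarTower K F M := IsScalarTower.of_algebraMap_eq fun _ => rfl
  have hKM : ∀ k : K, algebraMap M E (algebraMap K M k) = algebraMap K E k := by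
    intro k
    rw [IsScalarTower.algebraMap_apply K F E]
    rfl
  obtain ⟨δ, hδ, hδF⟩ := ext_der (F := F) (M := M) D hD
  have hz : (lc b (fun j => D (g j)) : E) ∉ Set.range (algebraMap M E) := by
    rintro ⟨a, ha⟩
    apply hcon
    rw [← ha]
    exact a.2
  obtain ⟨θ, hθ⟩ := arc (K := M) (E := E) _ hz
  let r : L →+* HahnSeries ℚ M :=
    ((Pui M).subtype : Pui M →+* HQ M).comp ((θ : E →+* Pui M).comp (algebraMap L E))
  have hr : ∀ l, r l = ((θ (algebraMap L E l) : Pui M) : HQ M) := fun l => rfl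
  have hθC : ∀ a : M, ((θ (algebraMap M E a) : Pui M) : HQ M) = C a := by
    intro a
    rw [θ.commutes, coe_algebraMap_Pui]
  have hym2 : ∀ i, y i ∈ M := fun i => mem_KK_of_mem ⟨i, rfl⟩
  have hym : ∀ i, y' i ∈ M := by
    intro i
    refine Fin.lastCases ?_ (fun i => ?_) i
    · simp only [y']
      rw [Fin.snoc_last]
      exact hg
    · simp only [y']
      rw [Fin.snoc_castSucc]
      exact hym2 i
  have hsum : ∀ g : Fin N → F, ∑ j, C (algebraMap F M (g j)) * r (b j) =
      ((θ (lc b g : E) : Pui M) : HQ M) := by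
    intro g
    rw [lc, map_sum]
    have h1 : ((∑ j, θ (algebraMap F E (g j) * algebraMap L E (b j)) : Pui M) : HQ M) =
        ∑ j, ((θ (algebraMap F E (g j) * algebraMap L E (b j)) : Pui M) : HQ M) :=
      map_sum ((Pui M).subtype) _ _
    rw [h1]
    apply Finset.sum_congr rfl
    intro j _
    rw [map_mul, Subfield.coe_mul, ← hθC, hr]
    rfl
  obtain ⟨c, μ, hc0, ⟨i₁, k₁, hk₁, hck⟩, hcQ, hμ, hord⟩ := polynomial_curve2 (K := K) (F := F)
    (L := L) (M := M)
    δ hδ (fun k => by
      change δ (algebraMap F M (algebraMap K F k)) = 0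
      rw [hδF, hDK, map_zero]) D hδF r (fun k => by
      rw [hr, ← hθC, hKM, ← IsScalarTower.algebraMap_apply K L E]) b f'
    (fun i => ⟨y' i, hym i⟩) (fun i => by
      rw [hsum, ← hθC, ← hy' i]
      rfl) (Fin.last 2) (by
      have h1 : ∀ j, C (δ (algebraMap F M (f' (Fin.last 2) j))) * r (b j) =
          C (algebraMap F M (D (g j))) * r (b j) := by
        intro j
        rw [hδF]
        simp only [f']
        rw [Fin.snoc_last]
      rw [Finset.sum_congr rfl (fun j _ => h1 j), hsum (fun j => D (g j)), hθ]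
      have h2 : ((tinv : Pui M) : HQ M).orderTop = ((-1 : ℚ) : WithTop ℚ) := by
        rw [← vP_apply]
        exact vP_tinv
      rw [h2]
      exact_mod_cast (by norm_num : (-1 : ℚ) < 0))
  -- the relations of the three numbers
  have hcQ3 : ∀ Q : MvPolynomial (Fin 3) F, MvPolynomial.aeval y' Q = 0 →
      MvPolynomial.aeval c Q = 0 := by
    intro Q hQ
    apply hcQ
    apply hdis
    rw [map_zero, aeval_pm, ← hQ]
    have h1 : (fun i => pm K F L E (∑ j, f' i j ⊗ₜ[K] b j)) = y' := by
      funext i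
      rw [map_sum, hy' i]
      apply Finset.sum_congr rfl
      intro j _
      rw [pm_tmul]
    rw [h1]
  -- the curve in `E`
  let cE : Fin 3 → Polynomial E := fun i => (c i).map (algebraMap M E)
  have hcE0 : ∀ i, (cE i).coeff 0 = y' i := by
    intro i
    simp only [cE]
    rw [Polynomial.coeff_map, hc0]
    rfl
  have hcEQ : ∀ Q : MvPolynomial (Fin 3) F, MvPolynomial.aeval y' Q = 0 →
      MvPolynomial.aeval cE Q = 0 := by
    intro Q hQ
    have h6 := congrArg (Polynomial.mapRingHom (algebraMap M E)) (hcQ3 Q hQ)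
    rw [map_zero, MvPolynomial.aeval_def, MvPolynomial.eval₂_comp_left] at h6
    rw [MvPolynomial.aeval_def, ← h6]
    congr 1
    ext a
    rw [RingHom.comp_apply, Polynomial.coe_mapRingHom, Polynomial.algebraMap_apply,
      Polynomial.algebraMap_apply, Polynomial.map_C]
    rfl
  -- the first two coordinates
  let c2 : Fin 2 → Polynomial M := fun i => c (Fin.castSucc i)
  let c2E : Fin 2 → Polynomial E := fun i => cE (Fin.castSucc i)
  have hy2 : ∀ i : Fin 2, y' (Fin.castSucc i) = y i := by
    intro i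
    simp only [y']
    rw [Fin.snoc_castSucc]
  have hQ2 : ∀ Q : MvPolynomial (Fin 2) F, MvPolynomial.aeval y Q = 0 →
      MvPolynomial.aeval y' (MvPolynomial.rename Fin.castSucc Q) = 0 := by
    intro Q hQ
    rw [MvPolynomial.aeval_rename, ← hQ]
    congr 2
    funext i
    rw [Function.comp_apply, hy2]
  have hc2Q : ∀ Q : MvPolynomial (Fin 2) F, MvPolynomial.aeval y Q = 0 →
      MvPolynomial.aeval c2 Q = 0 := by
    intro Q hQ
    have h2 := hcQ3 _ (hQ2 Q hQ)
    rw [MvPolynomial.aeval_rename] at h2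
    exact h2
  have hc2EQ : ∀ Q : MvPolynomial (Fin 2) F, MvPolynomial.aeval y Q = 0 →
      MvPolynomial.aeval c2E Q = 0 := by
    intro Q hQ
    have h2 := hcEQ _ (hQ2 Q hQ)
    rw [MvPolynomial.aeval_rename] at h2
    exact h2
  have hc2E0 : ∀ i, (c2E i).coeff 0 = y i := fun i => (hcE0 _).trans (hy2 i)
  have hcoe : ∀ i k, (c2E i).coeff k = ((c2 i).coeff k : E) := by
    intro i k
    simp only [c2E, c2, cE]
    rw [Polynomial.coeff_map]
    rfl
  have hnc : ∃ i k, k ≠ 0 ∧ (c2 i).coeff k ≠ 0 := by
    by_contra hno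
    push Not at hno
    have h1 : ∀ i : Fin 2, cE (Fin.castSucc i) = Polynomial.C (y i) := by
      intro i
      ext k
      rw [Polynomial.coeff_C]
      split_ifs with h
      · rw [h]
        exact hc2E0 i
      · have h3 := hcoe i k
        rw [hno i k h] at h3
        exact h3
    have h3 := const_snoc y (lc b g) hg cE hcEQ h1
    apply hck
    have h4 : ∀ i : Fin 3, (cE i).coeff k₁ = 0 := by
      intro i
      refine Fin.lastCases ?_ (fun i => ?_) i
      · exact h3 k₁ hk₁
      · rw [h1, Polynomial.coeff_C, if_neg hk₁]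
    have h5 := h4 i₁
    simp only [cE] at h5
    rw [Polynomial.coeff_map] at h5
    exact (map_eq_zero_iff _ (algebraMap M E).injective).mp h5
  -- the lowest exponent
  have hne : (sup c2).Nonempty := by
    obtain ⟨i, k, hk, hik⟩ := hnc
    exact ⟨k, (mem_sup _ _).mpr ⟨hk, i, hik⟩⟩
  obtain ⟨j, hjS, hjmin⟩ := (sup c2).exists_min_image id hne
  simp only [id] at hjmin
  obtain ⟨hj0, hjne⟩ := (mem_sup _ _).mp hjS
  let ym : Fin 2 → M := fun i => ⟨y i, hym2 i⟩
  have hvE : ∀ v : Fin 3 → M, LinearIndependent F (fun i => ((v i : M) : E)) →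
      LinearIndependent F v := by
    intro v hv
    have h1 : (fun i => ((v i : M) : E)) = (Algebra.linearMap M E).restrictScalars F ∘ v := rfl
    rw [h1] at hv
    exact LinearIndependent.of_comp _ hv
  have hindM : LinearIndependent F ![1, ym 0, ym 1] := by
    apply hvE
    convert hind using 1
    funext i
    fin_cases i
    · rfl
    · change y 0 = lc b (f 0)
      rw [hy]
    · change y 1 = lc b (f 1)
      rw [hy]
  have hyaM : ∀ Q : MvPolynomial (Fin 2) F, MvPolynomial.aeval ym Q = 0 →
      MvPolynomial.aeval y Q = 0 := by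
    intro Q hQ
    have h1 := MvPolynomial.aeval_algebraMap_apply (B := E) ym Q
    rw [hQ, map_zero] at h1
    exact h1
  have hyaM' : ∀ Q : MvPolynomial (Fin 2) F, MvPolynomial.aeval y Q = 0 →
      MvPolynomial.aeval ym Q = 0 := by
    intro Q hQ
    have h1 := MvPolynomial.aeval_algebraMap_apply (B := E) ym Q
    have h2 : (fun i => algebraMap M E (ym i)) = y := rfl
    have h3 : (⇑(algebraMap M E) ∘ ym) = y := rfl
    rw [h3, hQ] at h1
    exact (map_eq_zero_iff _ (algebraMap M E).injective).mp h1.symm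
  obtain ⟨P, hP0, hPy⟩ := hrel
  have hlow := hLOW F M ym hindM ⟨P, hP0, hyaM' P hPy⟩ c2 (fun l => by
      simp only [c2, ym]
      rw [hc0]
      exact Subtype.ext (hy2 l)) (fun Q hQ => hc2Q Q (hyaM Q hQ)) j
    (Nat.pos_of_ne_zero hj0) (fun l k hk hkj => by
      by_contra h3
      have h4 := hjmin k ((mem_sup _ _).mpr ⟨by omega, l, h3⟩)
      omega) hjne
  -- the count
  let β : Fin N → HahnSeries ℚ M := fun j => r (b j)
  have hLm : ∀ g : Fin N → F, Lm β g = ((θ (lc b g : E) : Pui M) : HQ M) := hsum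
  have hf' : ∀ i : Fin 2, f' (Fin.castSucc i) = f i := by
    intro i
    simp only [f']
    rw [Fin.snoc_castSucc]
  have hord2 : ∀ (i : Fin 2) (k : ℕ),
      ((-(k * μ) : ℚ) : WithTop ℚ) ≤ (Lm β fun j => D^[k] (f i j)).orderTop ∧
      (Lm β fun j => D^[k] (f i j)).coeff (-(k * μ)) =
        (-1) ^ k * ((k.factorial : M) * (c2 i).coeff k) := by
    intro i k
    have h1 := hord (Fin.castSucc i) k
    rw [hf'] at h1
    exact h1
  have hfacM : ∀ k : ℕ, (-1) ^ k * (k.factorial : M) ≠ 0 := by
    intro k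
    apply mul_ne_zero
    · exact pow_ne_zero _ (neg_ne_zero.mpr one_ne_zero)
    · exact_mod_cast k.factorial_ne_zero
  have hj0ne : (c2 0).coeff j ≠ 0 := hlow.ne_zero 0
  let sel : ℕ → Fin 2 := fun k => if (c2 0).coeff k ≠ 0 then 0 else 1
  have hselj : sel j = 0 := if_pos hj0ne
  have hsel : ∀ k ∈ sup c2, (c2 (sel k)).coeff k ≠ 0 := by
    intro k hk
    obtain ⟨-, i, hi⟩ := (mem_sup _ _).mp hk
    by_cases h : (c2 0).coeff k ≠ 0
    · have h3 : sel k = 0 := if_pos h
      rw [h3]
      exact h
    · have h3 : sel k = 1 := if_neg h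
      rw [h3]
      push Not at h
      fin_cases i
      · exact absurd h hi
      · exact hi
  have hcount := count β ![e, f 0, f 1] ![1, ym 0, ym 1] (by
      intro i
      rw [hLm]
      fin_cases i
      · change ((θ (lc b e : E) : Pui M) : HQ M) = C 1
        rw [he, map_one, map_one]
        rfl
      · change ((θ (lc b (f 0) : E) : Pui M) : HQ M) = C (ym 0)
        rw [← hθC]
        congr 2
        change _ = y 0
        rw [hy]
      · change ((θ (lc b (f 1) : E) : Pui M) : HQ M) = C (ym 1)
        rw [← hθC]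
        congr 2
        change _ = y 1
        rw [hy]) hindM (sup c2) (fun h => ((mem_sup _ _).mp h).1 rfl) μ hμ
    (fun k => fun j => D^[k] (f (sel k) j)) (fun k _ => (hord2 (sel k) k).1) (fun k hk => by
      rw [(hord2 (sel k) k).2, ← mul_assoc]
      exact mul_ne_zero (hfacM k) (hsel k hk)) j hjS (fun i => D^[j] (f 1 i)) (hord2 1 j).1 (by
      simp only [hselj]
      rw [(hord2 0 j).2, (hord2 1 j).2, LinearIndependent.pair_iff]
      intro s t hst
      apply LinearIndependent.pair_iff.mp hlow s t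
      apply mul_left_cancel₀ (hfacM j)
      rw [mul_zero, ← hst]
      rw [Algebra.smul_def, Algebra.smul_def, Algebra.smul_def, Algebra.smul_def]
      ring)
  have hsupE : sup c2E = sup c2 := by
    ext k
    rw [mem_sup, mem_sup]
    refine and_congr_right fun _ => exists_congr fun i => ?_
    rw [hcoe, Ne, Ne, ZeroMemClass.coe_eq_zero]
  obtain ⟨i, k, hk, hik⟩ := hnc
  apply hik
  have h7 := hNT c2E hc2E0 hc2EQ (by rw [hsupE]; exact hcount) i k hk
  rw [hcoe] at h7
  exact_mod_cast h7

end

end Pool.Agent.Zk18.Th
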