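import Mathlib

/-!
Statements (NOT results) of two small modules for MP_60829e_nt (pairs of linear forms).
-/

set_option autoImplicit false

namespace Pool.Agent.Zk18.Th

open Polynomial

/-- QUAD: polynomials of degree at most two in one number satisfy a quadratic relation.

Proof. `f = a₀ + a₁ X + a₂ X²`, `g = b₀ + b₁ X + b₂ X²`, `u = f(t)`, `v = g(t)`. Then
`b₂ u - a₂ v = c₀ + c₁ t` with `c₁ = a₁ b₂ - a₂ b₁`. If `c₁ = 0` then `1, u, v` are linearly dependent
(also if `a₂ = b₂ = 0`: `b₁ u - a₁ v` is a constant). Otherwise `t = (b₂ u - a₂ v - c₀) / c₁`; insert this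
into `u = f(t)` if `a₂ ≠ 0` (coefficient of `v²`: `a₂ ^ 3 / c₁ ^ 2`), and into `v = g(t)` if `a₂ = 0`, `b₂ ≠ 0`
(coefficient of `u²`: `b₂ ^ 3 / c₁ ^ 2`). -/
def S_QUAD : Prop :=
  ∀ (K U : Type) [Field K] [Field U] [Algebra K U] (t : U) (f g : K[X]), f.natDegree ≤ 2 →
    g.natDegree ≤ 2 → LinearIndependent K ![1, aeval t f, aeval t g] →
    ∃ c : Fin 6 → K, c ≠ 0 ∧
      algebraMap K U (c 0) * (aeval t f) ^ 2 + algebraMap K U (c 1) * (aeval t f * aeval t g) +
        algebraMap K U (c 2) * (aeval t g) ^ 2 + algebraMap K U (c 3) * aeval t f +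
        algebraMap K U (c 4) * aeval t g + algebraMap K U (c 5) = 0

/-- SPD: if `u`, `v` are algebraically dependent, any two elements of `⟨1, u, v⟩` are algebraically
dependent.

Proof. For example with the matroid `AlgebraicIndependent.matroid K U`, as in
`Pool.Agent.Results.MP_60829e_nt.FinitelyManySpaces` (`dependent`), or with transcendence degrees: the
elements are in the algebraic closure of `K(u, v)`. -/
def S_SPD : Prop :=
  ∀ (K U : Type) [Field K] [CharZero K] [Field U] [Algebra K U] (u v : U),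
    ¬ AlgebraicIndependent K ![u, v] →
    ∀ x ∈ Submodule.span K {1, u, v}, ∀ y ∈ Submodule.span K {1, u, v},
      ¬ AlgebraicIndependent K ![x, y]

end Pool.Agent.Zk18.Th
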